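import Pool.Agent.Lib.MP_fe8d1b_al.Spec

/-!
# BLO: graphs in which every vertex has a twin (MP_fe8d1b_al)
-/

set_option autoImplicit false

namespace Pool.Agent.Lib.MPfe8d1b

open Pool.Agent.Lib.MP_c91b70_al (GraphProd)

namespace BLOM

theorem racg_sq {V : Type} (Γ : SimpleGraph V) (x : V) :
    (PresentedGroup.of x : RACG Γ) * PresentedGroup.of x = 1 := by
  have h : FreeGroup.of x * FreeGroup.of x ∈ racgRelators Γ := Or.inl ⟨x, rfl⟩
  have h2 := PresentedGroup.one_of_mem h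
  rw [map_mul] at h2
  exact h2

/-- a bijection which changes slowly under left multiplication by generators is a quasi-isometry after
inversion -/
theorem qi_of_left {G H : Type} [Group G] [Group H] (S : Set G) (T : Set H) (hL : SpecLEN)
    (F : G ≃ H)
    (h1 : ∀ s ∈ S, ∀ x, Len T (F (s⁻¹ * x) * (F x)⁻¹) 8)
    (h2 : ∀ t ∈ T, ∀ y, Len S (F.symm (t⁻¹ * y) * (F.symm y)⁻¹) 8) : QI S T := by
  set f : G → H := fun x => (F x⁻¹)⁻¹ with hf
  set fi : H → G := fun y => (F.symm y⁻¹)⁻¹ with hfi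
  have hfif : ∀ x, fi (f x) = x := by
    intro x
    simp only [hf, hfi, inv_inv, Equiv.symm_apply_apply]
  have hffi : ∀ y, f (fi y) = y := by
    intro y
    simp only [hf, hfi, inv_inv, Equiv.apply_symm_apply]
  have l1 : ∀ s ∈ S, ∀ g, Len T ((f g)⁻¹ * f (g * s)) 8 := by
    intro s hs g
    have h := (h1 s hs g⁻¹).inv
    have e : (F (s⁻¹ * g⁻¹) * (F g⁻¹)⁻¹)⁻¹ = (f g)⁻¹ * f (g * s) := by
      simp only [hf, inv_inv, mul_inv_rev]
    rwa [e] at h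
  have l2 : ∀ t ∈ T, ∀ g, Len S ((fi g)⁻¹ * fi (g * t)) 8 := by
    intro t ht g
    have h := (h2 t ht g⁻¹).inv
    have e : (F.symm (t⁻¹ * g⁻¹) * (F.symm g⁻¹)⁻¹)⁻¹ = (fi g)⁻¹ * fi (g * t) := by
      simp only [hfi, inv_inv, mul_inv_rev]
    rwa [e] at h
  refine ⟨f, 8, 0, ?_, ?_, ?_⟩
  · intro x y N hN
    have h := hL.lip S T f 8 l1 _ N hN x
    rw [mul_inv_cancel_left] at h
    exact h
  · intro x y N hN
    have h := hL.lip T S fi 8 l2 _ N hN (f x)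
    rw [mul_inv_cancel_left, hfif, hfif] at h
    exact h
  · intro z
    refine ⟨fi z, ?_⟩
    rw [hffi, inv_mul_cancel]
    exact Len.one _ _

/-- same neighbours -/
def twinSetoid {V : Type} (Γ : SimpleGraph V) : Setoid V where
  r x y := ∀ z, Γ.Adj x z ↔ Γ.Adj y z
  iseqv := ⟨fun _ _ => Iff.rfl, fun h z => (h z).symm, fun h h' z => (h z).trans (h' z)⟩

/-- the quotient graph -/
def quotGraph {V : Type} (Γ : SimpleGraph V) : SimpleGraph (Quotient (twinSetoid Γ)) where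
  Adj p q := ∃ x y, (Quotient.mk (twinSetoid Γ) x = p) ∧ (Quotient.mk (twinSetoid Γ) y = q) ∧ Γ.Adj x y
  symm := ⟨fun _ _ ⟨x, y, hx, hy, h⟩ => ⟨y, x, hy, hx, h.symm⟩⟩
  loopless := ⟨fun p ⟨x, y, hx, hy, h⟩ => by
    have hxy : ∀ z, Γ.Adj x z ↔ Γ.Adj y z := Quotient.exact (hx.trans hy.symm)
    exact Γ.loopless.irrefl y ((hxy y).1 h)⟩

theorem quotGraph_adj {V : Type} (Γ : SimpleGraph V) (x y : V) :
    Γ.Adj x y ↔ (quotGraph Γ).Adj (Quotient.mk (twinSetoid Γ) x) (Quotient.mk (twinSetoid Γ) y) := by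
  constructor
  · intro h
    exact ⟨x, y, rfl, rfl, h⟩
  · rintro ⟨x', y', hx, hy, h⟩
    have hx' : ∀ z, Γ.Adj x' z ↔ Γ.Adj x z := Quotient.exact hx
    have hy' : ∀ z, Γ.Adj y' z ↔ Γ.Adj y z := Quotient.exact hy
    have h1 := (hx' y').1 h
    exact ((hy' x).1 h1.symm).symm

end BLOM

open BLOM in
theorem specBLO (hLEN : SpecLEN) (hGPW : SpecGPW) (hGPA : SpecGPA) (hPH1 : SpecPH1)
    (hPH2 : SpecPH2) : SpecBLO := by
  intro V _ Γ htw
  set Q := Quotient (twinSetoid Γ) with hQ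
  set c : V → Q := Quotient.mk (twinSetoid Γ) with hc
  have hPhi : ∀ q : Q, Phi {x : V // c x = q} := by
    intro q
    have h2 : 2 ≤ Nat.card {x : V // c x = q} := by
      obtain ⟨x, rfl⟩ := Quotient.exists_rep q
      obtain ⟨y, hyx, hy⟩ := htw x
      have hcy : c y = c x := Quotient.sound (s := twinSetoid Γ) hy
      have : Nontrivial {z : V // c z = c x} :=
        ⟨⟨⟨x, rfl⟩, ⟨y, hcy⟩, fun h => hyx (congrArg Subtype.val h).symm⟩⟩
      exact Finite.one_lt_card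
    rcases h2.eq_or_lt with h | h
    · exact hPH1 _ h.symm
    · exact hPH2 _ inferInstance h
  choose T hT φ hφ1 hφ2 using hPhi
  obtain ⟨D, hD⟩ := hGPW Γ (quotGraph Γ) c (quotGraph_adj Γ)
  obtain ⟨D', hD'⟩ := hGPA (quotGraph Γ) T
  have hfinQ : Finite Q := inferInstance
  refine ⟨Σ q, T q, inferInstance, sigGraph (quotGraph Γ) T, ?_⟩
  obtain ⟨F, hF1, hF2⟩ := Pool.Agent.Lib.MP_c91b70_al.QITransport.transport D D' φ
  have m1 : ∀ q : Q, ∀ s ∈ Set.range (FreeGroup.of : T q → FreeGroup (T q)),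
      D'.of q s ∈ gens (raagRelators (sigGraph (quotGraph Γ) T)) := by
    rintro q _ ⟨t, rfl⟩
    rw [hD']
    exact ⟨_, rfl⟩
  have m2 : ∀ q : Q, ∀ s ∈ gens {r : FreeGroup {x : V // c x = q} |
      ∃ a, r = FreeGroup.of a * FreeGroup.of a}, D.of q s ∈ gens (racgRelators Γ) := by
    rintro q _ ⟨t, rfl⟩
    rw [hD]
    exact ⟨_, rfl⟩
  refine qi_of_left _ _ hLEN F ?_ ?_
  · rintro _ ⟨x, rfl⟩ z
    have hinv : (PresentedGroup.of x : RACG Γ)⁻¹ = PresentedGroup.of x :=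
      inv_eq_of_mul_eq_one_left (racg_sq Γ x)
    obtain ⟨k, hk⟩ := hF1 (c x) (PresentedGroup.of ⟨x, rfl⟩) z
    rw [hD] at hk
    rw [hinv, hk]
    exact Len.map (D'.of (c x)) (m1 (c x)) (hφ1 (c x) ⟨x, rfl⟩ k)
  · rintro _ ⟨⟨q, t⟩, rfl⟩ y
    set s : RAAG (sigGraph (quotGraph Γ) T) := PresentedGroup.of ⟨q, t⟩ with hs
    obtain ⟨k, hk⟩ := hF2 q (FreeGroup.of t) (s⁻¹ * y)
    rw [hD', ← hs, mul_inv_cancel_left] at hk
    have e : F.symm (s⁻¹ * y) * (F.symm y)⁻¹ = (F.symm y * (F.symm (s⁻¹ * y))⁻¹)⁻¹ := by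
      rw [mul_inv_rev, inv_inv]
    rw [e, hk]
    exact (Len.map (D.of q) (m2 q) (hφ2 q t k)).inv

end Pool.Agent.Lib.MPfe8d1b
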