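import Pool.Agent.Lib.MP_fe8d1b_al.Spec

/-!
# CNV: preconnectedness and the isomorphisms of the chain (MP_fe8d1b_al)
-/

set_option autoImplicit false

namespace Pool.Agent.Lib.MPfe8d1b

namespace CNVM

open Relation

theorem pre {V : Type} (Γ : SimpleGraph V) (A : Set V) :
    (Γ.induce A).Preconnected ↔ Cn Γ A := by
  constructor
  · intro h x hx y hy
    have h1 := h ⟨x, hx⟩ ⟨y, hy⟩
    rw [SimpleGraph.reachable_iff_reflTransGen] at h1
    exact ReflTransGen.lift (p := fun a b => Γ.Adj a b ∧ b ∈ A) (fun a : A => (a : V))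
      (fun a b hab => ⟨hab, b.2⟩) _ _ h1
  · rintro h ⟨x, hx⟩ ⟨y, hy⟩
    have key : ∀ b, ReflTransGen (fun a b => Γ.Adj a b ∧ b ∈ A) x b →
        ∃ hb : b ∈ A, (Γ.induce A).Reachable ⟨x, hx⟩ ⟨b, hb⟩ := by
      intro b hb
      induction hb with
      | refl => exact ⟨hx, SimpleGraph.Reachable.refl _⟩
      | tail _ hbc ih =>
        obtain ⟨hb, hr⟩ := ih
        refine ⟨hbc.2, hr.trans (SimpleGraph.Adj.reachable ?_)⟩
        exact hbc.1
    exact (key y (h x hx y hy)).2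

theorem cnInduce {V : Type} (Γ : SimpleGraph V) (S : Set V) (C : Set S) :
    Cn (Γ.induce S) Cᶜ ↔ Cn Γ (S \ (Subtype.val '' C)) := by
  constructor
  · rintro h x ⟨hx, hxC⟩ y ⟨hy, hyC⟩
    have h1 := h ⟨x, hx⟩ (fun hc => hxC ⟨_, hc, rfl⟩) ⟨y, hy⟩ (fun hc => hyC ⟨_, hc, rfl⟩)
    refine ReflTransGen.lift (p := fun a b => Γ.Adj a b ∧ b ∈ S \ (Subtype.val '' C))
      (fun a : S => (a : V)) (fun a b hab => ⟨hab.1, b.2, ?_⟩) _ _ h1
    rintro ⟨c, hc, hcb⟩
    apply hab.2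
    rw [← Subtype.ext hcb]
    exact hc
  · intro h x hx y hy
    have key : ∀ b, ReflTransGen (fun a b => Γ.Adj a b ∧ b ∈ S \ (Subtype.val '' C)) (x : V) b →
        ∃ hb : b ∈ S, ReflTransGen (fun a b => (Γ.induce S).Adj a b ∧ b ∈ Cᶜ) x ⟨b, hb⟩ := by
      intro b hb
      induction hb with
      | refl => exact ⟨x.2, ReflTransGen.refl⟩
      | tail _ hbc ih =>
        obtain ⟨hb, hr⟩ := ih
        refine ⟨hbc.2.1, hr.tail ⟨hbc.1, ?_⟩⟩
        intro hc
        exact hbc.2.2 ⟨_, hc, rfl⟩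
    have hx' : (x : V) ∈ S \ (Subtype.val '' C) := by
      refine ⟨x.2, ?_⟩
      rintro ⟨c, hc, hcx⟩
      rw [Subtype.ext hcx] at hc
      exact hx hc
    have hy' : (y : V) ∈ S \ (Subtype.val '' C) := by
      refine ⟨y.2, ?_⟩
      rintro ⟨c, hc, hcx⟩
      rw [Subtype.ext hcx] at hc
      exact hy hc
    exact (key y (h x hx' y hy')).2

theorem cone {V : Type} (Γ : SimpleGraph V) (S : Set V) (x : V) (hx : x ∈ S) :
    ∃ N : Set (S \ {x} : Set V),
      Nonempty (Γ.induce S ≃g coneOff (Γ.induce (S \ {x})) N) := by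
  classical
  refine ⟨{y | Γ.Adj x y}, ⟨RelIso.symm ?_⟩⟩
  let e : Option (S \ {x} : Set V) ≃ S :=
    { toFun := fun o => match o with
        | none => ⟨x, hx⟩
        | some y => ⟨y.1, y.2.1⟩
      invFun := fun s => if h : s.1 = x then none else some ⟨s.1, s.2, h⟩
      left_inv := by
        rintro (_ | ⟨y, hy⟩)
        · simp
        · have : y ≠ x := hy.2
          simp [this]
      right_inv := by
        rintro ⟨s, hs⟩
        by_cases h : s = x
        · simp [h]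
        · simp [h] }
  refine ⟨e, ?_⟩
  rintro (_ | ⟨a, ha⟩) (_ | ⟨b, hb⟩)
  · simp [coneOff, e]
  · simp only [coneOff, e, SimpleGraph.fromRel_adj, SimpleGraph.induce_adj, Equiv.coe_fn_mk]
    constructor
    · intro h
      exact ⟨by simp, Or.inl (Or.inr ⟨⟨b, hb⟩, h, by simp, rfl⟩)⟩
    · rintro ⟨_, (⟨u, v, hu, hv, h⟩ | ⟨u, h, _, hu⟩) | ⟨u, v, hu, hv, h⟩ | ⟨u, h, hu, _⟩⟩
      · cases hu
      · cases hu; exact h
      · cases hv
      · cases hu
  · simp only [coneOff, e, SimpleGraph.fromRel_adj, SimpleGraph.induce_adj, Equiv.coe_fn_mk]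
    constructor
    · intro h
      exact ⟨by simp, Or.inr (Or.inr ⟨⟨a, ha⟩, h.symm, by simp, rfl⟩)⟩
    · rintro ⟨_, (⟨u, v, hu, hv, h⟩ | ⟨u, h, hu, _⟩) | ⟨u, v, hu, hv, h⟩ | ⟨u, h, _, hu⟩⟩
      · cases hv
      · cases hu
      · cases hu
      · cases hu; exact h.symm
  · simp only [coneOff, e, SimpleGraph.fromRel_adj, SimpleGraph.induce_adj, Equiv.coe_fn_mk]
    constructor
    · intro h
      refine ⟨?_, Or.inl (Or.inl ⟨_, _, rfl, rfl, h⟩)⟩
      intro hab
      have : a = b := by simpa using hab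
      exact h.ne this
    · rintro ⟨_, (⟨u, v, hu, hv, h⟩ | ⟨u, _, hu, _⟩) | ⟨u, v, hu, hv, h⟩ | ⟨u, _, hu, _⟩⟩
      · cases hu; cases hv; exact h
      · cases hu
      · cases hu; cases hv; exact h.symm
      · cases hu

theorem sq {V : Type} (Γ : SimpleGraph V) (S : Set V) (h : Sq Γ S) :
    Nonempty (Γ.induce S ≃g SimpleGraph.cycleGraph 4) := by
  obtain ⟨a, b, c, d, rfl, hac, hbd, ab, bc, cd, da, nac, nbd⟩ := h
  refine ⟨RelIso.symm ?_⟩
  let f : Fin 4 → ({a, b, c, d} : Set V) :=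
    ![⟨a, by simp⟩, ⟨b, by simp⟩, ⟨c, by simp⟩, ⟨d, by simp⟩]
  have hab := ab.ne
  have hbc := bc.ne
  have hcd := cd.ne
  have hda := da.ne
  have hinj : Function.Injective f := by
    intro i j hij
    have hij' := congrArg Subtype.val hij
    have hba := hab.symm
    have hcb := hbc.symm
    have hdc := hcd.symm
    have had := hda.symm
    have hca := Ne.symm hac
    have hdb := Ne.symm hbd
    fin_cases i <;> fin_cases j <;> first | rfl | (exfalso; revert hij'; assumption)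
  have hsurj : Function.Surjective f := by
    rintro ⟨y, hy⟩
    rcases hy with rfl | rfl | rfl | rfl
    · exact ⟨0, rfl⟩
    · exact ⟨1, rfl⟩
    · exact ⟨2, rfl⟩
    · exact ⟨3, rfl⟩
  refine ⟨Equiv.ofBijective f ⟨hinj, hsurj⟩, ?_⟩
  intro i j
  have hcyc : ∀ i j : Fin 4, (SimpleGraph.cycleGraph 4).Adj i j ↔ (i = j + 1 ∨ j = i + 1) := by
    intro i j
    revert i j
    decide
  rw [hcyc]
  have nca : ¬ Γ.Adj c a := fun h => nac h.symm
  have ndb : ¬ Γ.Adj d b := fun h => nbd h.symm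
  show Γ.Adj (f i) (f j) ↔ _
  fin_cases i <;> fin_cases j <;>
    simp [f, ab, bc, cd, da, nac, nbd, ab.symm, bc.symm, cd.symm, da.symm,
      nca, ndb]

end CNVM

theorem specCNV : SpecCNV where
  pre := CNVM.pre
  pre' := fun Γ S C => (CNVM.pre _ _).trans (CNVM.cnInduce Γ S C)
  cone := CNVM.cone
  sq := CNVM.sq

end Pool.Agent.Lib.MPfe8d1b
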