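import Pool.Agent.Lib.MP_fe8d1b_al.Spec

/-!
# COV: graphs with twins and dominated vertices, the groups (MP_fe8d1b_al)
-/

set_option autoImplicit false

namespace Pool.Agent.Lib.MPfe8d1b

namespace COVM

variable {V : Type}

/-- the preimage of `K` in the double -/
def dK (Γ : SimpleGraph V) (v : V) (K : Set V) : Set (DV Γ v) := {p | p.1.1 ∈ K}

theorem finDV [Finite V] (Γ : SimpleGraph V) (v : V) : Finite (DV Γ v) := by
  unfold DV
  infer_instance

theorem clique_dK {Γ : SimpleGraph V} {v : V} {K : Set V} (hK : Γ.IsClique K) (hv : v ∈ K) :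
    (dbl Γ v).IsClique (dK Γ v K) := by
  intro p hp q hq hpq
  have hpv : Γ.Adj p.1.1 v := hK hp hv p.2.1
  have hqv : Γ.Adj q.1.1 v := hK hq hv q.2.1
  have hp2 := p.2.2 hpv
  have hq2 := q.2.2 hqv
  refine ⟨hK hp hq ?_, Or.inr (Or.inl hpv)⟩
  intro h
  apply hpq
  apply Subtype.ext
  exact Prod.ext h (hp2.trans hq2.symm)

theorem ncard_dK [Finite V] {Γ : SimpleGraph V} {v : V} {K : Set V} (hK : Γ.IsClique K)
    (hv : v ∈ K) : (dK Γ v K).ncard < K.ncard := by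
  have hKfin : K.Finite := Set.toFinite K
  have h1 : ((fun p : DV Γ v => p.1.1) '' dK Γ v K).ncard = (dK Γ v K).ncard := by
    apply Set.ncard_image_of_injOn
    intro p hp q hq hpq
    have hpv : Γ.Adj p.1.1 v := hK hp hv p.2.1
    have hqv : Γ.Adj q.1.1 v := hK hq hv q.2.1
    apply Subtype.ext
    exact Prod.ext hpq ((p.2.2 hpv).trans (q.2.2 hqv).symm)
  rw [← h1]
  apply Set.ncard_lt_ncard _ hKfin
  constructor
  · rintro _ ⟨p, hp, rfl⟩
    exact hp
  · intro h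
    obtain ⟨p, _, hp⟩ := h hv
    exact p.2.1 hp

theorem cover {Γ : SimpleGraph V} {v : V} {K : Set V} (hK : Γ.IsClique K) (hv : v ∈ K)
    (h : ∀ x, x ∉ K → HasTwin Γ K x ∨ Dominated Γ K x) (p : DV Γ v) (hp : p ∉ dK Γ v K) :
    HasTwin (dbl Γ v) (dK Γ v K) p ∨ Dominated (dbl Γ v) (dK Γ v K) p := by
  obtain ⟨⟨x, a⟩, hxv, ha⟩ := p
  simp only at hxv ha
  have hxK : x ∉ K := hp
  rcases h x hxK with ⟨y, hyK, hyx, hy⟩ | ⟨w, hwK, hw⟩
  · -- a twin
    left
    have hyv : y ≠ v := by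
      rintro rfl
      exact hyK hv
    have hyv' : Γ.Adj y v → a = false := fun h => ha ((hy v).1 h)
    refine ⟨⟨(y, a), hyv, hyv'⟩, hyK, ?_, ?_⟩
    · intro h
      exact hyx (congrArg (fun q : DV Γ v => q.1.1) h)
    · intro z
      change (Γ.Adj y z.1.1 ∧ (a = z.1.2 ∨ Γ.Adj y v ∨ Γ.Adj z.1.1 v)) ↔
        (Γ.Adj x z.1.1 ∧ (a = z.1.2 ∨ Γ.Adj x v ∨ Γ.Adj z.1.1 v))
      rw [hy, hy]
  · by_cases hwv : w = v
    · subst hwv
      left
      have hxw : ¬ Γ.Adj x w := fun h => Γ.loopless.irrefl _ (hw w h)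
      refine ⟨⟨(x, !a), hxv, fun h => absurd h hxw⟩, hxK, ?_, ?_⟩
      · intro h
        have := congrArg (fun q : DV Γ w => q.1.2) h
        simp at this
      · intro z
        change (Γ.Adj x z.1.1 ∧ ((!a) = z.1.2 ∨ Γ.Adj x w ∨ Γ.Adj z.1.1 w)) ↔
          (Γ.Adj x z.1.1 ∧ (a = z.1.2 ∨ Γ.Adj x w ∨ Γ.Adj z.1.1 w))
        constructor
        · rintro ⟨h1, _⟩
          exact ⟨h1, Or.inr (Or.inr (hw _ h1).symm)⟩
        · rintro ⟨h1, _⟩
          exact ⟨h1, Or.inr (Or.inr (hw _ h1).symm)⟩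
    · right
      have hwv' : Γ.Adj w v := hK hwK hv hwv
      refine ⟨⟨(w, false), hwv, fun _ => rfl⟩, hwK, ?_⟩
      intro z hz
      obtain ⟨h1, _⟩ := hz
      exact ⟨hw _ h1, Or.inr (Or.inl hwv')⟩

end COVM

theorem specCOV (hLEN : SpecLEN) (hBLO : SpecBLO) (hDBL : SpecDBL) : SpecCOV := by
  have main : ∀ n : ℕ, ∀ {V : Type} [Finite V] (Γ : SimpleGraph V) (K : Set V), K.ncard = n →
      Γ.IsClique K → (∀ x, x ∉ K → HasTwin Γ K x ∨ Dominated Γ K x) →
      ∃ (U : Type) (_ : Finite U) (Δ : SimpleGraph U),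
        QI (gens (racgRelators Γ)) (gens (raagRelators Δ)) := by
    intro n
    induction n using Nat.strong_induction_on with
    | _ n ih =>
      intro V _ Γ K hn hK h
      rcases K.eq_empty_or_nonempty with hE | ⟨v, hv⟩
      · apply hBLO
        intro x
        have hx : x ∉ K := by rw [hE]; exact Set.notMem_empty x
        rcases h x hx with ⟨y, _, hyx, hy⟩ | ⟨w, hw, _⟩
        · exact ⟨y, hyx, hy⟩
        · rw [hE] at hw
          exact absurd hw (Set.notMem_empty w)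
      · haveI := COVM.finDV Γ v
        have hlt : (COVM.dK Γ v K).ncard < n := hn ▸ COVM.ncard_dK hK hv
        obtain ⟨U, hU, Δ, hQ⟩ := ih _ hlt (dbl Γ v) (COVM.dK Γ v K) rfl (COVM.clique_dK hK hv)
          (COVM.cover hK hv h)
        exact ⟨U, hU, Δ, hLEN.trans _ _ _ (hDBL Γ v) hQ⟩
  intro V _ Γ K hK h
  exact main _ Γ K rfl hK h

end Pool.Agent.Lib.MPfe8d1b
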