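import Pool.Agent.Lib.MP_fe8d1b_al.Spec

set_option autoImplicit false

namespace Pool.Agent.Lib.MPfe8d1b

namespace DBLM

section

variable {V : Type} (Γ : SimpleGraph V) (v : V)

/-- The relators of a Coxeter group die under a map to a group. -/
theorem racg_lift {W G : Type} [Group G] (Δ : SimpleGraph W) (f : W → G)
    (h2 : ∀ s, f s * f s = 1) (hc : ∀ s t, Δ.Adj s t → f s * f t = f t * f s) :
    ∀ r ∈ racgRelators Δ, FreeGroup.lift f r = 1 := by
  rintro r (⟨s, rfl⟩ | ⟨s, t, hst, rfl⟩)
  · simp [h2]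
  · simp only [map_mul, map_inv, FreeGroup.lift_apply_of]
    rw [hc s t hst]
    group

/-- The homomorphism of a Coxeter group. -/
def hom {W G : Type} [Group G] (Δ : SimpleGraph W) (f : W → G)
    (h2 : ∀ s, f s * f s = 1) (hc : ∀ s t, Δ.Adj s t → f s * f t = f t * f s) :
    RACG Δ →* G := PresentedGroup.toGroup (racg_lift Δ f h2 hc)

theorem hom_of {W G : Type} [Group G] (Δ : SimpleGraph W) (f : W → G)
    (h2 : ∀ s, f s * f s = 1) (hc : ∀ s t, Δ.Adj s t → f s * f t = f t * f s) (s : W) :
    hom Δ f h2 hc (PresentedGroup.of s) = f s := PresentedGroup.toGroup.of _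

theorem sq {W : Type} (Δ : SimpleGraph W) (s : W) :
    (PresentedGroup.of s : RACG Δ) * PresentedGroup.of s = 1 := by
  have : (PresentedGroup.mk (racgRelators Δ)) (FreeGroup.of s * FreeGroup.of s) = 1 := by
    rw [PresentedGroup.one_of_mem]
    exact Or.inl ⟨s, rfl⟩
  rwa [map_mul] at this

theorem comm {W : Type} (Δ : SimpleGraph W) {s t : W} (h : Δ.Adj s t) :
    (PresentedGroup.of s : RACG Δ) * PresentedGroup.of t =
      PresentedGroup.of t * PresentedGroup.of s := by
  have h1 : (PresentedGroup.mk (racgRelators Δ))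
      (FreeGroup.of s * FreeGroup.of t * (FreeGroup.of s)⁻¹ * (FreeGroup.of t)⁻¹) = 1 := by
    rw [PresentedGroup.one_of_mem]
    exact Or.inr ⟨s, t, h, rfl⟩
  rw [map_mul, map_mul, map_mul, map_inv, map_inv] at h1
  have h2 : (PresentedGroup.of s : RACG Δ) * PresentedGroup.of t *
    (PresentedGroup.of s)⁻¹ * (PresentedGroup.of t)⁻¹ = 1 := h1
  rw [mul_inv_eq_one, mul_inv_eq_iff_eq_mul] at h2
  exact h2

theorem inv_of {W : Type} (Δ : SimpleGraph W) (s : W) :
    (PresentedGroup.of s : RACG Δ)⁻¹ = PresentedGroup.of s :=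
  inv_eq_of_mul_eq_one_left (sq Δ s)

/-- Homomorphisms of a Coxeter group are determined by the generators. -/
theorem hom_ext {W G : Type} [Group G] (Δ : SimpleGraph W) (f g : RACG Δ →* G)
    (h : ∀ s, f (PresentedGroup.of s) = g (PresentedGroup.of s)) : f = g :=
  PresentedGroup.ext h

/-- The copy `(x, false)` of `x`. -/
def lo (x : V) (hx : x ≠ v) : DV Γ v := ⟨(x, false), hx, fun _ => rfl⟩

/-- The copy `(x, true)` of `x`. -/
def hi (x : V) (hx : x ≠ v) (h : ¬ Γ.Adj x v) : DV Γ v :=
  ⟨(x, true), hx, fun h2 => absurd h2 h⟩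

open Classical in
/-- The exchange of the copies. -/
noncomputable def sw (p : DV Γ v) : DV Γ v :=
  ⟨(p.1.1, if Γ.Adj p.1.1 v then false else !p.1.2), p.2.1, fun h => if_pos h⟩

theorem sw_adj {p : DV Γ v} (h : Γ.Adj p.1.1 v) : sw Γ v p = p := by
  apply Subtype.ext
  apply Prod.ext
  · rfl
  · exact (if_pos h).trans (p.2.2 h).symm

theorem sw_not {p : DV Γ v} (h : ¬ Γ.Adj p.1.1 v) : (sw Γ v p).1.2 = !p.1.2 := if_neg h

theorem sw_sw (p : DV Γ v) : sw Γ v (sw Γ v p) = p := by
  by_cases h : Γ.Adj p.1.1 v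
  · rw [sw_adj Γ v h, sw_adj Γ v h]
  · apply Subtype.ext
    apply Prod.ext
    · rfl
    · rw [sw_not Γ v (p := sw Γ v p) h, sw_not Γ v h, Bool.not_not]

theorem sw_dbl {p q : DV Γ v} (h : (dbl Γ v).Adj p q) : (dbl Γ v).Adj (sw Γ v p) (sw Γ v q) := by
  refine ⟨h.1, ?_⟩
  rcases h.2 with h1 | h1 | h1
  · by_cases hp : Γ.Adj p.1.1 v
    · exact Or.inr (Or.inl hp)
    · by_cases hq : Γ.Adj q.1.1 v
      · exact Or.inr (Or.inr hq)
      · left
        rw [sw_not Γ v hp, sw_not Γ v hq, h1]
  · exact Or.inr (Or.inl h1)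
  · exact Or.inr (Or.inr h1)

/-- The automorphism `σ`. -/
noncomputable def sig : RACG (dbl Γ v) →* RACG (dbl Γ v) :=
  hom (dbl Γ v) (fun p => PresentedGroup.of (sw Γ v p)) (fun _ => sq _ _)
    (fun _ _ h => comm _ (sw_dbl Γ v h))

theorem sig_of (p : DV Γ v) : sig Γ v (PresentedGroup.of p) = PresentedGroup.of (sw Γ v p) :=
  hom_of _ _ _ _ p

theorem sig_sig (n : RACG (dbl Γ v)) : sig Γ v (sig Γ v n) = n := by
  have : (sig Γ v).comp (sig Γ v) = MonoidHom.id _ := by
    apply hom_ext
    intro p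
    rw [MonoidHom.comp_apply, sig_of, sig_of, sw_sw]
    rfl
  exact DFunLike.congr_fun this n

/-- The action of `v`. -/
noncomputable def pv : Equiv.Perm (RACG (dbl Γ v) × Bool) where
  toFun p := (sig Γ v p.1, !p.2)
  invFun p := (sig Γ v p.1, !p.2)
  left_inv p := by simp [sig_sig]
  right_inv p := by simp [sig_sig]

/-- The translations. -/
def px (W : Type) [Group W] : W →* Equiv.Perm (W × Bool) where
  toFun u :=
    { toFun := fun p => (u * p.1, p.2)
      invFun := fun p => (u⁻¹ * p.1, p.2)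
      left_inv := fun p => by simp
      right_inv := fun p => by simp }
  map_one' := by
    ext p <;> simp
  map_mul' u w := by
    ext p <;> simp [mul_assoc]

theorem px_apply (W : Type) [Group W] (u : W) (p : W × Bool) : px W u p = (u * p.1, p.2) := rfl

theorem pv_apply (p : RACG (dbl Γ v) × Bool) : pv Γ v p = (sig Γ v p.1, !p.2) := rfl

open Classical in
/-- The action of the generators. -/
noncomputable def act (x : V) : Equiv.Perm (RACG (dbl Γ v) × Bool) :=
  if hx : x = v then pv Γ v else px _ (PresentedGroup.of (lo Γ v x hx))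

theorem act_v : act Γ v v = pv Γ v := dif_pos rfl

theorem act_ne {x : V} (hx : x ≠ v) : act Γ v x = px _ (PresentedGroup.of (lo Γ v x hx)) :=
  dif_neg hx

theorem pv_pv : pv Γ v * pv Γ v = 1 := by
  ext p <;> simp [pv_apply, sig_sig]

theorem act_sq (x : V) : act Γ v x * act Γ v x = 1 := by
  by_cases hx : x = v
  · rw [hx, act_v, pv_pv]
  · rw [act_ne Γ v hx, ← map_mul, sq, map_one]

theorem act_comm_v {x : V} (hx : x ≠ v) (h : Γ.Adj x v) :
    act Γ v x * act Γ v v = act Γ v v * act Γ v x := by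
  rw [act_v, act_ne Γ v hx]
  have h1 : sig Γ v (PresentedGroup.of (lo Γ v x hx)) = PresentedGroup.of (lo Γ v x hx) := by
    rw [sig_of, sw_adj Γ v (p := lo Γ v x hx) h]
  ext p
  · simp only [Equiv.Perm.mul_apply, px_apply, pv_apply, map_mul, h1]
  · rfl

theorem act_comm (x y : V) (h : Γ.Adj x y) : act Γ v x * act Γ v y = act Γ v y * act Γ v x := by
  by_cases hx : x = v
  · subst hx
    exact (act_comm_v Γ x h.symm.ne h.symm).symm
  · by_cases hy : y = v
    · subst hy
      exact act_comm_v Γ y hx h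
    · rw [act_ne Γ v hx, act_ne Γ v hy, ← map_mul, ← map_mul]
      congr 1
      exact comm _ ⟨h, Or.inl rfl⟩

/-- The action `Θ`. -/
noncomputable def Th : RACG Γ →* Equiv.Perm (RACG (dbl Γ v) × Bool) :=
  hom Γ (act Γ v) (act_sq Γ v) (act_comm Γ v)

theorem Th_of (x : V) : Th Γ v (PresentedGroup.of x) = act Γ v x := hom_of _ _ _ _ x

/-- The images of the vertices of the double. -/
def jf (p : DV Γ v) : RACG Γ :=
  if p.1.2 = false then PresentedGroup.of p.1.1
  else PresentedGroup.of v * PresentedGroup.of p.1.1 * PresentedGroup.of v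

theorem jf_false {p : DV Γ v} (h : p.1.2 = false) : jf Γ v p = PresentedGroup.of p.1.1 := if_pos h

theorem jf_true {p : DV Γ v} (h : p.1.2 = true) :
    jf Γ v p = PresentedGroup.of v * PresentedGroup.of p.1.1 * PresentedGroup.of v :=
  if_neg (by rw [h]; simp)

theorem jf_sq (p : DV Γ v) : jf Γ v p * jf Γ v p = 1 := by
  cases h : p.1.2
  · rw [jf_false Γ v h, sq]
  · rw [jf_true Γ v h]
    calc _ = PresentedGroup.of v * PresentedGroup.of p.1.1 *
          ((PresentedGroup.of v : RACG Γ) * PresentedGroup.of v) * PresentedGroup.of p.1.1 *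
          PresentedGroup.of v := by group
      _ = PresentedGroup.of v * ((PresentedGroup.of p.1.1 : RACG Γ) * PresentedGroup.of p.1.1) *
          PresentedGroup.of v := by rw [sq Γ v]; group
      _ = 1 := by rw [sq, mul_one, sq]

theorem conj_comm {G : Type} [Group G] {w x y : G} (hxy : x * y = y * x)
    (hxw : x * w = w * x) : x * (w * y * w) = w * y * w * x := by
  calc x * (w * y * w) = x * w * y * w := by group
    _ = w * (x * y) * w := by rw [hxw]; group
    _ = w * y * (x * w) := by rw [hxy]; group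
    _ = w * y * w * x := by rw [hxw]; group

theorem jf_comm (p q : DV Γ v) (h : (dbl Γ v).Adj p q) :
    jf Γ v p * jf Γ v q = jf Γ v q * jf Γ v p := by
  have hc : (PresentedGroup.of p.1.1 : RACG Γ) * PresentedGroup.of q.1.1 =
      PresentedGroup.of q.1.1 * PresentedGroup.of p.1.1 := comm Γ h.1
  cases hp : p.1.2 <;> cases hq : q.1.2
  · rw [jf_false Γ v hp, jf_false Γ v hq, hc]
  · rw [jf_false Γ v hp, jf_true Γ v hq]
    have hpv : Γ.Adj p.1.1 v := by
      rcases h.2 with h1 | h1 | h1
      · rw [hp, hq] at h1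
        exact absurd h1 (by simp)
      · exact h1
      · have := q.2.2 h1
        rw [hq] at this
        exact absurd this (by simp)
    exact conj_comm hc (comm Γ hpv)
  · rw [jf_true Γ v hp, jf_false Γ v hq]
    have hqv : Γ.Adj q.1.1 v := by
      rcases h.2 with h1 | h1 | h1
      · rw [hp, hq] at h1
        exact absurd h1 (by simp)
      · have := p.2.2 h1
        rw [hp] at this
        exact absurd this (by simp)
      · exact h1
    exact (conj_comm hc.symm (comm Γ hqv)).symm
  · rw [jf_true Γ v hp, jf_true Γ v hq]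
    have key : ∀ a b : RACG Γ, PresentedGroup.of v * a * PresentedGroup.of v *
        (PresentedGroup.of v * b * PresentedGroup.of v) =
        PresentedGroup.of v * (a * b) * PresentedGroup.of v := by
      intro a b
      calc _ = PresentedGroup.of v * a * ((PresentedGroup.of v : RACG Γ) * PresentedGroup.of v) *
            b * PresentedGroup.of v := by group
        _ = _ := by rw [sq]; group
    rw [key, key, hc]

/-- The homomorphism `j`. -/
def jj : RACG (dbl Γ v) →* RACG Γ := hom (dbl Γ v) (jf Γ v) (jf_sq Γ v) (jf_comm Γ v)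

theorem jj_of (p : DV Γ v) : jj Γ v (PresentedGroup.of p) = jf Γ v p := hom_of _ _ _ _ p

theorem jj_sig (n : RACG (dbl Γ v)) :
    jj Γ v (sig Γ v n) = PresentedGroup.of v * jj Γ v n * PresentedGroup.of v := by
  have h1 : (jj Γ v).comp (sig Γ v) =
      ((MulAut.conj (PresentedGroup.of v : RACG Γ)).toMonoidHom).comp (jj Γ v) := by
    apply hom_ext
    intro p
    rw [MonoidHom.comp_apply, MonoidHom.comp_apply, sig_of, jj_of, jj_of]
    show _ = PresentedGroup.of v * jf Γ v p * (PresentedGroup.of v)⁻¹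
    rw [inv_of]
    by_cases h : Γ.Adj p.1.1 v
    · rw [sw_adj Γ v h, jf_false Γ v (p.2.2 h), ← comm Γ h, mul_assoc, sq, mul_one]
    · cases hp : p.1.2
      · rw [jf_true Γ v (by rw [sw_not Γ v h, hp]; rfl), jf_false Γ v hp]
        rfl
      · rw [jf_false Γ v (by rw [sw_not Γ v h, hp]; rfl), jf_true Γ v hp]
        show PresentedGroup.of p.1.1 = _
        calc (PresentedGroup.of p.1.1 : RACG Γ) = ((PresentedGroup.of v : RACG Γ) *
              PresentedGroup.of v) * PresentedGroup.of p.1.1 *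
              ((PresentedGroup.of v : RACG Γ) * PresentedGroup.of v) := by
              rw [sq, one_mul, mul_one]
          _ = _ := by group
  have h2 := DFunLike.congr_fun h1 n
  rw [MonoidHom.comp_apply, MonoidHom.comp_apply] at h2
  rw [h2]
  show PresentedGroup.of v * jj Γ v n * (PresentedGroup.of v)⁻¹ = _
  rw [inv_of]

/-- The inverse bijection. -/
def GG (p : RACG (dbl Γ v) × Bool) : RACG Γ :=
  jj Γ v p.1 * (if p.2 = true then PresentedGroup.of v else 1)

theorem GG_false (n : RACG (dbl Γ v)) : GG Γ v (n, false) = jj Γ v n := by simp [GG]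

theorem GG_true (n : RACG (dbl Γ v)) : GG Γ v (n, true) = jj Γ v n * PresentedGroup.of v := by
  simp [GG]

theorem GG_Th (g : RACG Γ) : ∀ p, GG Γ v (Th Γ v g p) = g * GG Γ v p := by
  have hg : g ∈ Subgroup.closure (Set.range (PresentedGroup.of (rels := racgRelators Γ))) := by
    rw [PresentedGroup.closure_range_of]
    exact Subgroup.mem_top g
  induction hg using Subgroup.closure_induction with
  | mem g hg =>
    obtain ⟨x, rfl⟩ := hg
    rintro ⟨n, e⟩
    rw [Th_of]
    by_cases hx : x = v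
    · subst hx
      rw [act_v, pv_apply]
      cases e
      · show GG Γ x (sig Γ x n, true) = _
        rw [GG_true, GG_false, jj_sig, mul_assoc, sq, mul_one]
      · show GG Γ x (sig Γ x n, false) = _
        rw [GG_true, GG_false, jj_sig, mul_assoc]
    · rw [act_ne Γ v hx, px_apply]
      have h1 : jj Γ v (PresentedGroup.of (lo Γ v x hx)) = PresentedGroup.of x := by
        rw [jj_of, jf_false Γ v rfl]
        rfl
      cases e
      · show GG Γ v (PresentedGroup.of (lo Γ v x hx) * n, false) = _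
        rw [GG_false, GG_false, map_mul, h1]
      · show GG Γ v (PresentedGroup.of (lo Γ v x hx) * n, true) = _
        rw [GG_true, GG_true, map_mul, h1, mul_assoc]
  | one =>
    intro p
    rw [map_one, one_mul]
    rfl
  | mul g h _ _ ihg ihh =>
    intro p
    rw [map_mul, Equiv.Perm.mul_apply, ihg, ihh, mul_assoc]
  | inv g _ ih =>
    intro p
    have h1 := ih (Th Γ v g⁻¹ p)
    rw [← Equiv.Perm.mul_apply, ← map_mul, mul_inv_cancel, map_one] at h1
    rw [eq_inv_mul_iff_mul_eq, ← h1]
    rfl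

theorem Th_jj (n : RACG (dbl Γ v)) (p : RACG (dbl Γ v) × Bool) :
    Th Γ v (jj Γ v n) p = (n * p.1, p.2) := by
  have h1 : (Th Γ v).comp (jj Γ v) = px (RACG (dbl Γ v)) := by
    apply hom_ext
    intro q
    rw [MonoidHom.comp_apply, jj_of]
    cases hq : q.1.2
    · rw [jf_false Γ v hq, Th_of, act_ne Γ v q.2.1]
      congr 2
      apply Subtype.ext
      exact Prod.ext rfl hq.symm
    · have hnot : ¬ Γ.Adj q.1.1 v := by
        intro h
        have := q.2.2 h
        rw [hq] at this
        exact absurd this (by simp)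
      rw [jf_true Γ v hq, map_mul, map_mul, Th_of, Th_of, act_v, act_ne Γ v q.2.1]
      have h2 : sw Γ v (lo Γ v q.1.1 q.2.1) = q := by
        apply Subtype.ext
        apply Prod.ext
        · rfl
        · exact (sw_not Γ v (p := lo Γ v q.1.1 q.2.1) hnot).trans hq.symm
      ext r
      · simp only [Equiv.Perm.mul_apply, px_apply, pv_apply, map_mul, sig_sig, sig_of, h2]
      · simp [Equiv.Perm.mul_apply, px_apply, pv_apply]
  have h2 := DFunLike.congr_fun h1 n
  rw [MonoidHom.comp_apply] at h2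
  rw [h2]
  rfl

/-- The bijection. -/
noncomputable def FF (g : RACG Γ) : RACG (dbl Γ v) × Bool := Th Γ v g (1, false)

theorem GG_FF (g : RACG Γ) : GG Γ v (FF Γ v g) = g := by
  unfold FF
  rw [GG_Th, GG_false, map_one, mul_one]

theorem FF_GG (p : RACG (dbl Γ v) × Bool) : FF Γ v (GG Γ v p) = p := by
  obtain ⟨n, e⟩ := p
  unfold FF
  cases e
  · rw [GG_false, Th_jj]
    simp
  · rw [GG_true, map_mul, Equiv.Perm.mul_apply, Th_jj, Th_of, act_v, pv_apply]
    simp

theorem lenj (hLEN : SpecLEN) {z : RACG (dbl Γ v)} {N : ℕ}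
    (hz : Len (gens (racgRelators (dbl Γ v))) z N) :
    Len (gens (racgRelators Γ)) (jj Γ v z) (3 * N) := by
  have hv : Len (gens (racgRelators Γ)) (PresentedGroup.of v) 1 := Len.of_mem ⟨v, rfl⟩
  have h := hLEN.lip (gens (racgRelators (dbl Γ v))) (gens (racgRelators Γ)) (jj Γ v) 3 ?_ z N hz 1
  · rw [map_one, one_mul, inv_one, one_mul] at h
    exact h
  · rintro _ ⟨p, rfl⟩ g
    rw [map_mul, inv_mul_cancel_left, jj_of]
    have hx : Len (gens (racgRelators Γ)) (PresentedGroup.of p.1.1) 1 := Len.of_mem ⟨_, rfl⟩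
    cases hp : p.1.2
    · rw [jf_false Γ v hp]
      exact hx.mono (by norm_num)
    · rw [jf_true Γ v hp]
      exact (hv.mul hx).mul hv

theorem main (hLEN : SpecLEN) :
    QI (gens (racgRelators Γ)) (gens (racgRelators (dbl Γ v))) := by
  have hv : Len (gens (racgRelators Γ)) (PresentedGroup.of v) 1 := Len.of_mem ⟨v, rfl⟩
  refine ⟨fun g => (FF Γ v g).1, 3, 2, ?_, ?_, ?_⟩
  · intro x y N h
    have h1 := hLEN.lip (gens (racgRelators Γ)) (gens (racgRelators (dbl Γ v)))
      (fun g => (FF Γ v g).1) 1 ?_ _ N h x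
    · rw [mul_inv_cancel_left] at h1
      exact h1.mono (by omega)
    · rintro _ ⟨t, rfl⟩ g
      obtain ⟨⟨n, e⟩, hne⟩ : ∃ p, GG Γ v p = g := ⟨_, GG_FF Γ v g⟩
      have hcase : ∃ u : RACG (dbl Γ v), ∃ e', Len (gens (racgRelators (dbl Γ v))) u 1 ∧
          g * PresentedGroup.of t = GG Γ v (n * u, e') := by
        by_cases ht : t = v
        · subst ht
          refine ⟨1, !e, Len.one _ _, ?_⟩
          rw [← hne, mul_one]
          cases e
          · show _ = GG Γ t (n, true)
            rw [GG_true, GG_false]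
          · show _ = GG Γ t (n, false)
            rw [GG_true, GG_false, mul_assoc, sq, mul_one]
        · cases e
          · refine ⟨PresentedGroup.of (lo Γ v t ht), false, Len.of_mem ⟨_, rfl⟩, ?_⟩
            rw [← hne, GG_false, GG_false, map_mul, jj_of, jf_false Γ v rfl]
            rfl
          · by_cases hadj : Γ.Adj t v
            · refine ⟨PresentedGroup.of (lo Γ v t ht), true, Len.of_mem ⟨_, rfl⟩, ?_⟩
              rw [← hne, GG_true, GG_true, map_mul, jj_of, jf_false Γ v rfl, mul_assoc,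
                mul_assoc]
              congr 1
              exact (comm Γ hadj).symm
            · refine ⟨PresentedGroup.of (hi Γ v t ht hadj), true,
                Len.of_mem ⟨_, rfl⟩, ?_⟩
              rw [← hne, GG_true, GG_true, map_mul, jj_of, jf_true Γ v rfl]
              show jj Γ v n * PresentedGroup.of v * PresentedGroup.of t =
                jj Γ v n * (PresentedGroup.of v * PresentedGroup.of t * PresentedGroup.of v) *
                  PresentedGroup.of v
              calc _ = jj Γ v n * PresentedGroup.of v * PresentedGroup.of t *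
                    ((PresentedGroup.of v : RACG Γ) * PresentedGroup.of v) := by
                    rw [sq, mul_one]
                _ = _ := by group
      obtain ⟨u, e', hu, hgu⟩ := hcase
      show Len _ ((FF Γ v g).1⁻¹ * (FF Γ v (g * PresentedGroup.of t)).1) 1
      rw [hgu, FF_GG, ← hne, FF_GG]
      show Len _ (n⁻¹ * (n * u)) 1
      rw [inv_mul_cancel_left]
      exact hu
  · intro x y N h
    obtain ⟨⟨n, e⟩, rfl⟩ : ∃ p, GG Γ v p = x := ⟨_, GG_FF Γ v x⟩
    obtain ⟨⟨m, d⟩, rfl⟩ : ∃ p, GG Γ v p = y := ⟨_, GG_FF Γ v y⟩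
    have h' : Len (gens (racgRelators (dbl Γ v)))
      ((FF Γ v (GG Γ v (n, e))).1⁻¹ * (FF Γ v (GG Γ v (m, d))).1) N := h
    rw [FF_GG, FF_GG] at h'
    have hj := lenj Γ v hLEN h'
    rw [map_mul, map_inv] at hj
    have hx : ∀ (n : RACG (dbl Γ v)) (e : Bool), ∃ w, Len (gens (racgRelators Γ)) w 1 ∧
        GG Γ v (n, e) = jj Γ v n * w := by
      intro n e
      cases e
      · exact ⟨1, Len.one _ _, by rw [GG_false, mul_one]⟩
      · exact ⟨_, hv, GG_true Γ v n⟩
    obtain ⟨w, hw, e1⟩ := hx n e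
    obtain ⟨w', hw', e2⟩ := hx m d
    rw [e1, e2]
    have h3 : (jj Γ v n * w)⁻¹ * (jj Γ v m * w') = w⁻¹ * ((jj Γ v n)⁻¹ * jj Γ v m) * w' := by
      group
    rw [h3]
    exact ((hw.inv.mul hj).mul hw').mono (by omega)
  · intro z
    refine ⟨GG Γ v (z, false), ?_⟩
    show Len _ ((FF Γ v (GG Γ v (z, false))).1⁻¹ * z) 2
    rw [FF_GG]
    show Len _ (z⁻¹ * z) 2
    rw [inv_mul_cancel]
    exact Len.one _ _

end

end DBLM

theorem specDBL (hLEN : SpecLEN) : SpecDBL := fun Γ v => DBLM.main Γ v hLEN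

end Pool.Agent.Lib.MPfe8d1b
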