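import Mathlib

/-!
# Right-angled Coxeter and Artin groups, RAAGedy graphs, cone-offs (MP_fe8d1b_al)
-/

set_option autoImplicit false

namespace Pool.Agent.Lib.MPfe8d1b

/-- The relators `s s` for the vertices `s`, and `s t s⁻¹ t⁻¹` for the edges `{s, t}`. -/
def racgRelators {V : Type} (Γ : SimpleGraph V) : Set (FreeGroup V) :=
  {r | (∃ s, r = FreeGroup.of s * FreeGroup.of s) ∨
    ∃ s t, Γ.Adj s t ∧
      r = FreeGroup.of s * FreeGroup.of t * (FreeGroup.of s)⁻¹ * (FreeGroup.of t)⁻¹}

/-- The right-angled Coxeter group of the graph `Γ`. -/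
abbrev RACG {V : Type} (Γ : SimpleGraph V) : Type := PresentedGroup (racgRelators Γ)

/-- The relators `s t s⁻¹ t⁻¹` for the edges `{s, t}`. -/
def raagRelators {V : Type} (Δ : SimpleGraph V) : Set (FreeGroup V) :=
  {r | ∃ s t, Δ.Adj s t ∧
    r = FreeGroup.of s * FreeGroup.of t * (FreeGroup.of s)⁻¹ * (FreeGroup.of t)⁻¹}

/-- The right-angled Artin group of the graph `Δ`. -/
abbrev RAAG {V : Type} (Δ : SimpleGraph V) : Type := PresentedGroup (raagRelators Δ)

/-- The standard generators of a presented group. -/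
abbrev gens {V : Type} (R : Set (FreeGroup V)) : Set (PresentedGroup R) :=
  Set.range PresentedGroup.of

/-- The word metric of the generating set `S`: the least length of a product of elements of `S` and
inverses of elements of `S` which is equal to `x⁻¹ * y`. -/
noncomputable def wordDist {G : Type} [Group G] (S : Set G) (x y : G) : ℕ :=
  sInf {n : ℕ | ∃ l : List G, (∀ s ∈ l, s ∈ S ∨ s⁻¹ ∈ S) ∧ l.prod = x⁻¹ * y ∧ l.length = n}

/-- The groups `G` and `H` with the word metrics of `S` and `T` are quasi-isometric. -/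
def QuasiIsometric {G H : Type} [Group G] [Group H] (S : Set G) (T : Set H) : Prop :=
  ∃ (f : G → H) (K C : ℕ),
    (∀ x y, wordDist T (f x) (f y) ≤ K * wordDist S x y + C) ∧
    (∀ x y, wordDist S x y ≤ K * wordDist T (f x) (f y) + C) ∧
    ∀ z, ∃ x, wordDist T (f x) z ≤ C

/-- `Γ` is RAAGedy: its right-angled Coxeter group is quasi-isometric to the right-angled Artin group
of a finite simple graph. -/
def RAAGedy {V : Type} (Γ : SimpleGraph V) : Prop :=
  ∃ (U : Type) (_ : Finite U) (Δ : SimpleGraph U),
    QuasiIsometric (gens (racgRelators Γ)) (gens (raagRelators Δ))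

/-- No clique of `Γ` is separating: deleting a clique (possibly empty) leaves a graph in which any
two vertices are joined by a path. -/
def NoSeparatingClique {V : Type} (Γ : SimpleGraph V) : Prop :=
  ∀ C : Set V, Γ.IsClique C → (Γ.induce Cᶜ).Preconnected

/-- The property `P` of the problem: finite, triangle-free, incomplete, without separating cliques,
RAAGedy. -/
structure HasP {V : Type} (Γ : SimpleGraph V) : Prop where
  finite : Finite V
  triangleFree : Γ.CliqueFree 3
  incomplete : Γ ≠ ⊤
  noSeparatingClique : NoSeparatingClique Γ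
  raagedy : RAAGedy Γ

/-- The cone-off of `Γ` over the set `N` of vertices: one new vertex `none`, adjacent exactly to the
vertices in `N`. -/
def coneOff {V : Type} (Γ : SimpleGraph V) (N : Set V) : SimpleGraph (Option V) :=
  SimpleGraph.fromRel fun a b =>
    (∃ x y, a = some x ∧ b = some y ∧ Γ.Adj x y) ∨ ∃ y ∈ N, a = none ∧ b = some y

/-- `Γ` is the end of a chain of cone-offs which starts with a square and all of whose members have
the property `P`. -/
inductive BuiltInP : ∀ {V : Type}, SimpleGraph V → Prop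
  | square {V : Type} {Γ : SimpleGraph V} (h : Nonempty (Γ ≃g SimpleGraph.cycleGraph 4))
      (hP : HasP Γ) : BuiltInP Γ
  | cone {V V' : Type} {Γ : SimpleGraph V} {Γ' : SimpleGraph V'} (N : Set V) (hΓ : BuiltInP Γ)
      (h : Nonempty (Γ' ≃g coneOff Γ N)) (hP : HasP Γ') : BuiltInP Γ'

/-- `x` has a twin outside `K`: another vertex with the same neighbours. -/
def HasTwin {V : Type} (Γ : SimpleGraph V) (K : Set V) (x : V) : Prop :=
  ∃ y, y ∉ K ∧ y ≠ x ∧ ∀ z, Γ.Adj y z ↔ Γ.Adj x z

/-- `x` is dominated by a vertex `v` of `K`: every neighbour of `x` is a neighbour of `v`. -/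
def Dominated {V : Type} (Γ : SimpleGraph V) (K : Set V) (x : V) : Prop :=
  ∃ v ∈ K, ∀ z, Γ.Adj x z → Γ.Adj v z

end Pool.Agent.Lib.MPfe8d1b
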