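import Pool.Agent.Lib.MP_fe8d1b_al.Spec

/-!
# FIN: assembly (MP_fe8d1b_al)
-/

set_option autoImplicit false

namespace Pool.Agent.Lib.MPfe8d1b

namespace FINM

theorem step (hST1 : SpecST1) (hST2 : SpecST2) (hST3 : SpecST3) (hST4 : SpecST4)
    (hST5 : SpecST5) {V : Type} [Finite V] (Γ : SimpleGraph V) (S K T : Set V)
    (hG : Good Γ S K T) : Next Γ S ∨ Sq Γ S := by
  rcases K.eq_empty_or_nonempty with rfl | hK
  · by_cases h : ∃ x ∈ S, ∃ x' ∈ S, ∃ x'' ∈ S, x' ≠ x ∧ x'' ≠ x ∧ x'' ≠ x' ∧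
      (∀ z ∈ S, Γ.Adj x' z ↔ Γ.Adj x z) ∧ ∀ z ∈ S, Γ.Adj x'' z ↔ Γ.Adj x z
    · exact Or.inl (hST4 Γ S T hG h)
    · exact hST5 Γ S T hG h
  · rcases T.eq_empty_or_nonempty with rfl | hT
    · exact hST2 Γ S K hG
    · by_cases h : ∃ x ∈ S, x ∉ K ∧ x ∉ T
      · exact Or.inl (hST1 Γ S K T hG hT h)
      · refine Or.inl (hST3 Γ S K T hG hK ?_)
        intro x hx hxK
        by_contra hxT
        exact h ⟨x, hx, hxK, hxT⟩

theorem built (hST1 : SpecST1) (hST2 : SpecST2) (hST3 : SpecST3) (hST4 : SpecST4)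
    (hST5 : SpecST5) (hCNV : SpecCNV) (hHP : SpecHP) {V : Type} [Finite V] (Γ : SimpleGraph V)
    (n : ℕ) : ∀ S K T : Set V, S.ncard = n → Good Γ S K T →
      ∀ {V' : Type} (Γ' : SimpleGraph V'), Nonempty (Γ' ≃g Γ.induce S) → HasP Γ' →
        BuiltInP Γ' := by
  induction n using Nat.strong_induction_on with
  | _ n ih =>
    intro S K T hn hG V' Γ' hiso hP
    obtain ⟨e⟩ := hiso
    rcases step hST1 hST2 hST3 hST4 hST5 Γ S K T hG with ⟨x, hx, K', T', hG'⟩ | hsq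
    · have hlt : (S \ {x}).ncard < n := by
        rw [← hn]
        exact Set.ncard_sdiff_singleton_lt_of_mem hx (Set.toFinite S)
      have h1 := ih _ hlt (S \ {x}) K' T' rfl hG' (Γ.induce (S \ {x})) ⟨SimpleGraph.Iso.refl⟩
        (hHP Γ (S \ {x}) K' T' hG')
      obtain ⟨N, ⟨e'⟩⟩ := hCNV.cone Γ S x hx
      exact BuiltInP.cone N h1 ⟨e.trans e'⟩ hP
    · obtain ⟨e'⟩ := hCNV.sq Γ S hsq
      exact BuiltInP.square ⟨e.trans e'⟩ hP

end FINM

theorem specFIN (hLEN : SpecLEN) (hCOV : SpecCOV) (hHP : SpecHP) (hST1 : SpecST1)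
    (hST2 : SpecST2) (hST3 : SpecST3) (hST4 : SpecST4) (hST5 : SpecST5) (hCNV : SpecCNV) :
    SpecFIN := by
  intro V _ Γ K hfree hinc hsep hK hcov hpre
  classical
  have hne : ∃ x, x ∉ K := by
    by_contra h
    push Not at h
    apply hinc
    ext x y
    rw [SimpleGraph.top_adj]
    exact ⟨fun h' => h'.ne, fun h' => hK (h x) (h y) h'⟩
  have hG : Good Γ Set.univ K {x | x ∉ K ∧ ¬ Dominated Γ K x} := by
    constructor
    · intro x _ y _ z _ hxy hyz hxz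
      exact hfree {x, y, z} (SimpleGraph.is3Clique_triple_iff.2 ⟨hxy, hxz, hyz⟩)
    · exact Set.subset_univ _
    · exact Set.subset_univ _
    · exact fun x hx => hx.1
    · exact fun v hv w hw hvw => hK hv hw hvw
    · obtain ⟨x, hx⟩ := hne
      exact ⟨x, Set.mem_univ x, hx⟩
    · rintro x ⟨hxK, hxd⟩
      rcases hcov x hxK with ⟨y, hyK, hyx, hy⟩ | h
      · refine ⟨y, ⟨hyK, ?_⟩, hyx, fun z _ => hy z⟩
        rintro ⟨v, hv, h⟩
        exact hxd ⟨v, hv, fun z hz => h z ((hy z).2 hz)⟩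
      · exact absurd h hxd
    · intro x _ hxK hxU
      have : Dominated Γ K x := by
        by_contra h
        exact hxU ⟨hxK, h⟩
      obtain ⟨v, hv, h⟩ := this
      exact ⟨v, hv, fun z _ => h z⟩
    · exact (hCNV.pre Γ _).1 hpre
    · have h := (hCNV.pre Γ _).1 (hsep K hK)
      rwa [Set.compl_eq_univ_sdiff] at h
    · intro v hv
      obtain ⟨x, hx⟩ := hne
      have hC : Γ.IsClique (K \ {v}) := hK.subset Set.sdiff_subset
      have h := (hCNV.pre Γ _).1 (hsep _ hC)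
      have hxv : x ≠ v := by rintro rfl; exact hx hv
      have h1 := h v (by simp) x (fun h' => hx h'.1)
      rcases Relation.ReflTransGen.cases_head h1 with h2 | ⟨y, ⟨h2, h3⟩, -⟩
      · exact absurd h2.symm hxv
      · refine ⟨y, Set.mem_univ y, ?_, h2⟩
        intro hyK
        exact h3 ⟨hyK, h2.ne'⟩
  have hP : HasP Γ := by
    refine ⟨inferInstance, hfree, hinc, hsep, ?_⟩
    obtain ⟨U, hU, Δ, hQ⟩ := hCOV Γ K hK hcov
    exact ⟨U, hU, Δ, hLEN.wd _ _ (hLEN.gen _) (hLEN.gen _) hQ⟩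
  exact FINM.built hST1 hST2 hST3 hST4 hST5 hCNV hHP Γ _ Set.univ K _ rfl hG Γ
    ⟨SimpleGraph.induceUnivIso Γ |>.symm⟩ hP

end Pool.Agent.Lib.MPfe8d1b
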