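import Pool.Agent.Lib.MP_fe8d1b_al.Spec

/-!
# GPA: the Artin group of a pulled back graph is a graph product of free groups
-/

set_option autoImplicit false

namespace Pool.Agent.Lib.MPfe8d1b

open Pool.Agent.Lib.MP_c91b70_al (GraphProd)

namespace GPAM

theorem commute_free {α β : Type} {X : Type} [Group X] (f : FreeGroup α →* X)
    (g : FreeGroup β →* X) (h : ∀ a b, Commute (f (FreeGroup.of a)) (g (FreeGroup.of b)))
    (x : FreeGroup α) (y : FreeGroup β) : Commute (f x) (g y) := by
  have top : ∀ {γ : Type} (K : Subgroup (FreeGroup γ)), (∀ a, FreeGroup.of a ∈ K) → K = ⊤ := by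
    intro γ K hK
    rw [eq_top_iff, ← FreeGroup.closure_range_of]
    rw [Subgroup.closure_le]
    rintro _ ⟨a, rfl⟩
    exact hK a
  have h1 : ∀ a (y : FreeGroup β), Commute (f (FreeGroup.of a)) (g y) := by
    intro a y
    have h2 : (Subgroup.centralizer {f (FreeGroup.of a)}).comap g = ⊤ := by
      apply top
      intro b
      rw [Subgroup.mem_comap, Subgroup.mem_centralizer_singleton_iff]
      exact (h a b).eq.symm
    have : y ∈ (Subgroup.centralizer {f (FreeGroup.of a)}).comap g := h2 ▸ Subgroup.mem_top y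
    rw [Subgroup.mem_comap, Subgroup.mem_centralizer_singleton_iff] at this
    exact this.symm
  have h2 : (Subgroup.centralizer {g y}).comap f = ⊤ := by
    apply top
    intro a
    rw [Subgroup.mem_comap, Subgroup.mem_centralizer_singleton_iff]
    exact h1 a y
  have : x ∈ (Subgroup.centralizer {g y}).comap f := h2 ▸ Subgroup.mem_top x
  rw [Subgroup.mem_comap, Subgroup.mem_centralizer_singleton_iff] at this
  exact this

variable {Q : Type} (Θ : SimpleGraph Q) (T : Q → Type)

/-- A generator. -/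
def gA (a : Σ q, T q) : RAAG (sigGraph Θ T) := PresentedGroup.of a

theorem gA_comm {a b : Σ q, T q} (h : Θ.Adj a.1 b.1) : Commute (gA Θ T a) (gA Θ T b) := by
  have h1 := PresentedGroup.one_of_mem (rels := raagRelators (sigGraph Θ T))
    (x := FreeGroup.of a * FreeGroup.of b * (FreeGroup.of a)⁻¹ * (FreeGroup.of b)⁻¹) ⟨a, b, h, rfl⟩
  rw [map_mul, map_mul, map_mul, map_inv, map_inv] at h1
  have h2 : gA Θ T a * gA Θ T b * (gA Θ T a)⁻¹ * (gA Θ T b)⁻¹ = 1 := h1
  rw [mul_inv_eq_one, mul_inv_eq_iff_eq_mul] at h2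
  exact h2

/-- The vertex homomorphisms. -/
def ofA (q : Q) : FreeGroup (T q) →* RAAG (sigGraph Θ T) :=
  FreeGroup.lift fun t => gA Θ T ⟨q, t⟩

theorem ofA_of (q : Q) (t : T q) : ofA Θ T q (FreeGroup.of t) = gA Θ T ⟨q, t⟩ :=
  FreeGroup.lift_apply_of

/-- The lift. -/
def liftA {X : Type} [Group X] (f : ∀ q, FreeGroup (T q) →* X)
    (hf : ∀ v w, Θ.Adj v w → ∀ g h, Commute (f v g) (f w h)) : RAAG (sigGraph Θ T) →* X :=
  PresentedGroup.toGroup (f := fun a => f a.1 (FreeGroup.of a.2)) (by
    rintro r ⟨a, b, hab, rfl⟩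
    rw [map_mul, map_mul, map_mul, map_inv, map_inv, FreeGroup.lift_apply_of,
      FreeGroup.lift_apply_of]
    have hc := hf a.1 b.1 hab (FreeGroup.of a.2) (FreeGroup.of b.2)
    rw [mul_inv_eq_one, mul_inv_eq_iff_eq_mul]
    exact hc.eq)

/-- The Artin group as a graph product. -/
def gpA : GraphProd Θ (fun q => FreeGroup (T q)) (RAAG (sigGraph Θ T)) where
  of := ofA Θ T
  comm := by
    intro v w hvw g h
    refine commute_free (ofA Θ T v) (ofA Θ T w) (fun a b => ?_) g h
    rw [ofA_of, ofA_of]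
    exact gA_comm Θ T hvw
  gen := by
    rw [eq_top_iff]
    intro x _
    apply PresentedGroup.generated_by
    intro a
    have h1 : (PresentedGroup.of a : RAAG (sigGraph Θ T)) = ofA Θ T a.1 (FreeGroup.of a.2) := by
      rw [ofA_of]; rfl
    rw [h1]
    exact Subgroup.mem_iSup_of_mem a.1 ⟨_, rfl⟩
  lift := fun f hf => liftA Θ T f hf
  lift_of := by
    intro X _ f hf v g
    have : (liftA Θ T f hf).comp (ofA Θ T v) = f v := by
      apply FreeGroup.ext_hom
      intro j
      rw [MonoidHom.comp_apply, ofA_of, liftA, gA, PresentedGroup.toGroup.of]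
    exact DFunLike.congr_fun this g

end GPAM

theorem specGPA : SpecGPA := by
  intro Q Θ T
  refine ⟨GPAM.gpA Θ T, ?_⟩
  intro q t
  exact GPAM.ofA_of Θ T q t

end Pool.Agent.Lib.MPfe8d1b
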