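import Pool.Agent.Lib.MP_fe8d1b_al.Spec
import Pool.Agent.Lib.MP_c91b70_al.QIInst

/-!
# GPW: the Coxeter group of a pulled back graph is a graph product (MP_fe8d1b_al)
-/

set_option autoImplicit false

namespace Pool.Agent.Lib.MPfe8d1b

namespace GPWM

open Pool.Agent.Lib.MP_c91b70_al (GraphProd)
open Pool.Agent.Lib.MP_c91b70_al.QIInst (commute_of_gen)

variable {V Q : Type} {Γ : SimpleGraph V} {Θ : SimpleGraph Q} {c : V → Q}

theorem g_sq (a : V) : (PresentedGroup.of a * PresentedGroup.of a : RACG Γ) = 1 := by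
  have h := PresentedGroup.one_of_mem (rels := racgRelators Γ)
    (x := FreeGroup.of a * FreeGroup.of a) (Or.inl ⟨a, rfl⟩)
  rw [map_mul] at h
  exact h

theorem g_comm {a b : V} (h : Γ.Adj a b) :
    Commute (PresentedGroup.of a : RACG Γ) (PresentedGroup.of b) := by
  have h1 := PresentedGroup.one_of_mem (rels := racgRelators Γ)
    (x := FreeGroup.of a * FreeGroup.of b * (FreeGroup.of a)⁻¹ * (FreeGroup.of b)⁻¹)
    (Or.inr ⟨a, b, h, rfl⟩)
  rw [map_mul, map_mul, map_mul, map_inv, map_inv] at h1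
  have h2 : (PresentedGroup.of a : RACG Γ) * PresentedGroup.of b * (PresentedGroup.of a)⁻¹ *
      (PresentedGroup.of b)⁻¹ = 1 := h1
  rw [mul_inv_eq_one, mul_inv_eq_iff_eq_mul] at h2
  exact h2

theorem fv_sq {X : Type} (a : X) : (PresentedGroup.of a * PresentedGroup.of a : FV X) = 1 := by
  have h := PresentedGroup.one_of_mem
    (rels := {r : FreeGroup X | ∃ a, r = FreeGroup.of a * FreeGroup.of a})
    (x := FreeGroup.of a * FreeGroup.of a) ⟨a, rfl⟩
  rw [map_mul] at h
  exact h

variable (Γ c) in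
/-- The vertex homomorphism. -/
def ofW (q : Q) : FV {x : V // c x = q} →* RACG Γ :=
  PresentedGroup.toGroup (f := fun x : {x : V // c x = q} => (PresentedGroup.of x.1 : RACG Γ)) (by
    rintro r ⟨a, rfl⟩
    rw [map_mul, FreeGroup.lift_apply_of]
    exact g_sq _)

theorem ofW_of (q : Q) (x : {x : V // c x = q}) :
    ofW Γ c q (PresentedGroup.of x) = PresentedGroup.of x.1 :=
  PresentedGroup.toGroup.of _

/-- The lift. -/
def liftW (hc : ∀ x y, Γ.Adj x y ↔ Θ.Adj (c x) (c y)) {X : Type} [Group X]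
    (f : ∀ q : Q, FV {x : V // c x = q} →* X)
    (hf : ∀ v w, Θ.Adj v w → ∀ g h, Commute (f v g) (f w h)) : RACG Γ →* X :=
  PresentedGroup.toGroup (f := fun a => f (c a) (PresentedGroup.of ⟨a, rfl⟩)) (by
    rintro r (⟨a, rfl⟩ | ⟨a, b, hab, rfl⟩)
    · rw [map_mul, FreeGroup.lift_apply_of, ← map_mul, fv_sq, map_one]
    · rw [map_mul, map_mul, map_mul, map_inv, map_inv, FreeGroup.lift_apply_of,
        FreeGroup.lift_apply_of]
      have hcm := hf (c a) (c b) ((hc a b).1 hab) (PresentedGroup.of ⟨a, rfl⟩)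
        (PresentedGroup.of ⟨b, rfl⟩)
      rw [hcm.eq, mul_inv_cancel_right, mul_inv_cancel])

theorem exists_gp (hc : ∀ x y, Γ.Adj x y ↔ Θ.Adj (c x) (c y)) :
    ∃ D : GraphProd Θ (fun q => FV {x : V // c x = q}) (RACG Γ),
      ∀ (q : Q) (x : {x : V // c x = q}), D.of q (PresentedGroup.of x) = PresentedGroup.of x.1 := by
  refine ⟨{
    of := ofW Γ c
    comm := by
      intro v w hvw g h
      refine commute_of_gen (ofW Γ c v) (ofW Γ c w) (fun a b => ?_) g h
      rw [ofW_of, ofW_of]
      refine g_comm ((hc _ _).2 ?_)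
      rw [a.2, b.2]
      exact hvw
    gen := by
      rw [eq_top_iff]
      intro x _
      apply PresentedGroup.generated_by
      intro a
      have h1 : (PresentedGroup.of a : RACG Γ) = ofW Γ c (c a) (PresentedGroup.of ⟨a, rfl⟩) := by
        rw [ofW_of]
      rw [h1]
      exact Subgroup.mem_iSup_of_mem (c a) ⟨_, rfl⟩
    lift := fun f hf => liftW hc f hf
    lift_of := by
      intro X _ f hf v g
      have : (liftW hc f hf).comp (ofW Γ c v) = f v := by
        apply PresentedGroup.ext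
        rintro ⟨j, rfl⟩
        rw [MonoidHom.comp_apply, ofW_of, liftW, PresentedGroup.toGroup.of]
      exact DFunLike.congr_fun this g }, fun q x => ofW_of q x⟩

end GPWM

theorem specGPW : SpecGPW := by
  intro V Q Γ Θ c hc
  exact GPWM.exists_gp hc

end Pool.Agent.Lib.MPfe8d1b
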