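import Pool.Agent.Lib.MP_fe8d1b_al.Spec

/-!
# HP: a good configuration has the property `P` (MP_fe8d1b_al)
-/

set_option autoImplicit false

namespace Pool.Agent.Lib.MPfe8d1b

theorem specHP (hLEN : SpecLEN) (hCOV : SpecCOV) (hNSC : SpecNSC) (hCNV : SpecCNV) :
    SpecHP := by
  intro V _ Γ S K T hG
  have hfin : Finite S := inferInstance
  constructor
  · exact hfin
  · classical
    intro s hs
    rw [SimpleGraph.is3Clique_iff] at hs
    obtain ⟨a, b, c, hab, hac, hbc, -⟩ := hs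
    exact hG.free a.1 a.2 b.1 b.2 c.1 c.2 hab hbc hac
  · -- incomplete
    intro htop
    obtain ⟨x, hxS, hxK⟩ := hG.ne
    have hne : ∀ y ∈ S, y ≠ x → Γ.Adj x y := by
      intro y hy hyx
      have h1 : (Γ.induce S).Adj ⟨x, hxS⟩ ⟨y, hy⟩ := by
        rw [htop]
        intro h
        exact hyx (congrArg Subtype.val h).symm
      exact h1
    by_cases hxT : x ∈ T
    · obtain ⟨y, hyT, hyx, hz⟩ := hG.twin x hxT
      have h1 := hne y (hG.hT hyT) hyx
      have h2 := (hz y (hG.hT hyT)).mpr h1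
      exact Γ.loopless.irrefl y h2
    · obtain ⟨v, hvK, hz⟩ := hG.dom x hxS hxK hxT
      have hvx : v ≠ x := by
        intro h
        exact hxK (h ▸ hvK)
      have h1 := hne v (hG.hK hvK) hvx
      exact Γ.loopless.irrefl v (hz v (hG.hK hvK) h1)
  · intro C hC
    rw [hCNV.pre']
    refine hNSC Γ S K T hG (Subtype.val '' C) ?_ ?_
    · rintro _ ⟨x, -, rfl⟩
      exact x.2
    · rintro _ ⟨x, hx, rfl⟩ _ ⟨y, hy, rfl⟩ hxy
      have h1 : x ≠ y := fun h => hxy (congrArg Subtype.val h)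
      exact hC hx hy h1
  · -- RAAGedy
    have hcl : (Γ.induce S).IsClique (Subtype.val ⁻¹' K : Set S) := by
      intro x hx y hy hxy
      have h1 : x.1 ≠ y.1 := fun h => hxy (Subtype.ext h)
      exact hG.clique x.1 hx y.1 hy h1
    obtain ⟨U, hU, Δ, hQI⟩ := hCOV (Γ.induce S) (Subtype.val ⁻¹' K) hcl (by
      intro x hx
      by_cases hxT : x.1 ∈ T
      · left
        obtain ⟨y, hyT, hyx, hz⟩ := hG.twin x.1 hxT
        refine ⟨⟨y, hG.hT hyT⟩, ?_, ?_, ?_⟩
        · intro h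
          exact hG.disj y hyT h
        · intro h
          exact hyx (congrArg Subtype.val h)
        · intro z
          exact hz z.1 z.2
      · right
        obtain ⟨v, hvK, hz⟩ := hG.dom x.1 x.2 hx hxT
        exact ⟨⟨v, hG.hK hvK⟩, hvK, fun z hxz => hz z.1 z.2 hxz⟩)
    exact ⟨U, hU, Δ, hLEN.wd _ _ (hLEN.gen _) (hLEN.gen _) hQI⟩

end Pool.Agent.Lib.MPfe8d1b
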