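import Pool.Agent.Lib.MP_fe8d1b_al.Spec

/-!
# Facts on word lengths (LEN)
-/

set_option autoImplicit false

namespace Pool.Agent.Lib.MPfe8d1b

namespace LENM

theorem trans {G H L : Type} [Group G] [Group H] [Group L] (S : Set G) (T : Set H) (R : Set L)
    (h1 : QI S T) (h2 : QI T R) : QI S R := by
  obtain ⟨f, K, C, a1, a2, a3⟩ := h1
  obtain ⟨g, K', C', b1, b2, b3⟩ := h2
  refine ⟨fun x => g (f x), K * K', K' * C + 2 * C' + K * C' + C, ?_, ?_, ?_⟩
  · intro x y N h
    refine (b1 (f x) (f y) _ (a1 x y N h)).mono ?_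
    have : K' * (K * N + C) = K * K' * N + K' * C := by ring
    omega
  · intro x y N h
    refine (a2 x y _ (b2 (f x) (f y) N h)).mono ?_
    have : K * (K' * N + C') = K * K' * N + K * C' := by ring
    omega
  · intro z
    obtain ⟨y, hy⟩ := b3 z
    obtain ⟨x, hx⟩ := a3 y
    refine ⟨x, ?_⟩
    have h := (b1 (f x) y C hx).mul hy
    have e : (g (f x))⁻¹ * g y * ((g y)⁻¹ * z) = (g (f x))⁻¹ * z := by group
    rw [e] at h
    exact h.mono (by omega)

theorem wordDist_le {G : Type} [Group G] {S : Set G} {x y : G} {N : ℕ}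
    (h : Len S (x⁻¹ * y) N) : wordDist S x y ≤ N := by
  obtain ⟨l, h1, h2, h3⟩ := h
  exact le_trans (Nat.sInf_le ⟨l, h1, h2, rfl⟩) h3

theorem len_wordDist {G : Type} [Group G] {S : Set G} {x y : G}
    (h : ∃ N, Len S (x⁻¹ * y) N) : Len S (x⁻¹ * y) (wordDist S x y) := by
  obtain ⟨N, l, h1, h2, h3⟩ := h
  have hne : {n : ℕ | ∃ l : List G, (∀ s ∈ l, s ∈ S ∨ s⁻¹ ∈ S) ∧ l.prod = x⁻¹ * y ∧
      l.length = n}.Nonempty := ⟨l.length, l, h1, h2, rfl⟩
  obtain ⟨l', h1', h2', h3'⟩ := Nat.sInf_mem hne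
  exact ⟨l', h1', h2', h3'.le⟩

theorem wd {G H : Type} [Group G] [Group H] (S : Set G) (T : Set H)
    (hS : ∀ x, ∃ N, Len S x N) (hT : ∀ x, ∃ N, Len T x N) (h : QI S T) : QuasiIsometric S T := by
  obtain ⟨f, K, C, a1, a2, a3⟩ := h
  refine ⟨f, K, C, fun x y => ?_, fun x y => ?_, fun z => ?_⟩
  · exact wordDist_le (a1 x y _ (len_wordDist (hS _)))
  · exact wordDist_le (a2 x y _ (len_wordDist (hT _)))
  · obtain ⟨x, hx⟩ := a3 z
    exact ⟨x, wordDist_le hx⟩

theorem lip_list {G H : Type} [Group G] [Group H] (S : Set G) (T : Set H) (f : G → H) (L : ℕ)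
    (h : ∀ s ∈ S, ∀ g, Len T ((f g)⁻¹ * f (g * s)) L) (l : List G) :
    (∀ s ∈ l, s ∈ S ∨ s⁻¹ ∈ S) → ∀ g, Len T ((f g)⁻¹ * f (g * l.prod)) (L * l.length) := by
  induction l with
  | nil =>
    intro _ g
    have e : (f g)⁻¹ * f (g * ([] : List G).prod) = 1 := by simp
    rw [e]
    exact Len.one T _
  | cons s l ih =>
    intro hl g
    have h1 : Len T ((f g)⁻¹ * f (g * s)) L := by
      rcases hl s (List.mem_cons_self) with h2 | h2
      · exact h s h2 g
      · have h3 := (h s⁻¹ h2 (g * s)).inv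
        have e : ((f (g * s))⁻¹ * f (g * s * s⁻¹))⁻¹ = (f g)⁻¹ * f (g * s) := by
          rw [mul_inv_cancel_right, mul_inv_rev, inv_inv]
        rwa [e] at h3
    have h2 := ih (fun t ht => hl t (List.mem_cons_of_mem _ ht)) (g * s)
    have h3 := h1.mul h2
    have e : (f g)⁻¹ * f (g * s) * ((f (g * s))⁻¹ * f (g * s * l.prod)) =
        (f g)⁻¹ * f (g * (s :: l).prod) := by
      rw [List.prod_cons, ← mul_assoc g s, mul_assoc, mul_inv_cancel_left]
    rw [e] at h3
    refine h3.mono ?_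
    rw [List.length_cons, Nat.mul_succ]
    omega

theorem lip {G H : Type} [Group G] [Group H] (S : Set G) (T : Set H) (f : G → H) (L : ℕ)
    (h : ∀ s ∈ S, ∀ g, Len T ((f g)⁻¹ * f (g * s)) L) (z : G) (N : ℕ) (hz : Len S z N) (g : G) :
    Len T ((f g)⁻¹ * f (g * z)) (L * N) := by
  obtain ⟨l, h1, rfl, h3⟩ := hz
  exact (lip_list S T f L h l h1 g).mono (Nat.mul_le_mul_left _ h3)

theorem of_closure {G : Type} [Group G] {S : Set G} (hS : Subgroup.closure S = ⊤) (x : G) :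
    ∃ N, Len S x N := by
  have hx : x ∈ Subgroup.closure S := by rw [hS]; exact Subgroup.mem_top x
  induction hx using Subgroup.closure_induction with
  | mem y hy => exact ⟨1, Len.of_mem hy⟩
  | one => exact ⟨0, Len.one S 0⟩
  | mul y z _ _ hy hz =>
    obtain ⟨N, hN⟩ := hy
    obtain ⟨M, hM⟩ := hz
    exact ⟨N + M, hN.mul hM⟩
  | inv y _ hy =>
    obtain ⟨N, hN⟩ := hy
    exact ⟨N, hN.inv⟩

end LENM

theorem specLEN : SpecLEN where
  trans := fun S T R h1 h2 => LENM.trans S T R h1 h2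
  wd := fun S T hS hT h => LENM.wd S T hS hT h
  lip := fun S T f L h z N hz g => LENM.lip S T f L h z N hz g
  gen := fun R x => LENM.of_closure (PresentedGroup.closure_range_of R) x
  genF := fun {V} x => LENM.of_closure (FreeGroup.closure_range_of V) x

end Pool.Agent.Lib.MPfe8d1b
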