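import Pool.Agent.Lib.MP_fe8d1b_al.Spec

/-!
# NCT: a connected set can be made smaller outside a connected subset (MP_fe8d1b_al)
-/

set_option autoImplicit false

namespace Pool.Agent.Lib.MPfe8d1b

namespace NCTM

/-- The first step out of `B` of a chain. -/
theorem exit {V : Type} {r : V → V → Prop} {B : Set V} {t a : V} (h : Relation.ReflTransGen r t a)
    (ht : t ∈ B) (ha : a ∉ B) : ∃ b ∈ B, ∃ c, c ∉ B ∧ r b c := by
  induction h with
  | refl => exact absurd ht ha
  | @tail b c _ hbc ih =>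
    by_cases hb : b ∈ B
    · exact ⟨b, hb, c, ha, hbc⟩
    · exact ih hb

theorem insert_cn {V : Type} {Γ : SimpleGraph V} {B : Set V} (hB : Cn Γ B) {b x : V} (hb : b ∈ B)
    (hbx : Γ.Adj b x) : Cn Γ (insert x B) := by
  have mono : ∀ u ∈ B, ∀ v ∈ B,
      Relation.ReflTransGen (fun a c => Γ.Adj a c ∧ c ∈ insert x B) u v := by
    intro u hu v hv
    exact Relation.ReflTransGen.mono (fun a c h => ⟨h.1, Set.mem_insert_of_mem x h.2⟩) _ _ (hB u hu v hv)
  intro u hu v hv
  rcases Set.mem_insert_iff.mp hu with hux | huB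
  · rcases Set.mem_insert_iff.mp hv with hvx | hvB
    · rw [hux, hvx]
    · rw [hux]
      exact Relation.ReflTransGen.head ⟨hbx.symm, Set.mem_insert_of_mem _ hb⟩ (mono b hb v hvB)
  · rcases Set.mem_insert_iff.mp hv with hvx | hvB
    · rw [hvx]
      exact (mono u huB b hb).tail ⟨hbx, Set.mem_insert _ _⟩
    · exact mono u huB v hvB

end NCTM

open NCTM

theorem specNCT : SpecNCT := by
  intro V _ Γ A T hA hTA hTne hTA' hT
  have hfin : {B : Set V | T ⊆ B ∧ B ⊆ A ∧ B ≠ A ∧ Cn Γ B}.Finite := Set.toFinite _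
  obtain ⟨B, ⟨h1, h2, h3, h4⟩, hmax⟩ := hfin.exists_maximal ⟨T, subset_rfl, hTA, hTA', hT⟩
  obtain ⟨a, haA, haB⟩ : ∃ a ∈ A, a ∉ B := by
    by_contra hcon
    push Not at hcon
    exact h3 (h2.antisymm hcon)
  obtain ⟨t, ht⟩ := hTne
  obtain ⟨b, hb, x, hxB, hbx⟩ := exit (hA t (hTA ht) a haA) (h1 ht) haB
  have hcn := insert_cn h4 hb hbx.1
  have hins : insert x B = A := by
    by_contra hne
    have hm : insert x B ∈ {B : Set V | T ⊆ B ∧ B ⊆ A ∧ B ≠ A ∧ Cn Γ B} :=
      ⟨h1.trans (Set.subset_insert x B), Set.insert_subset hbx.2 h2, hne, hcn⟩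
    exact hxB (hmax hm (Set.subset_insert x B) (Set.mem_insert x B))
  refine ⟨x, hbx.2, fun hxT => hxB (h1 hxT), ?_⟩
  have : A \ {x} = B := by
    rw [← hins]
    ext z
    constructor
    · rintro ⟨hz, hzx⟩
      rcases Set.mem_insert_iff.mp hz with rfl | hz
      · exact absurd rfl hzx
      · exact hz
    · intro hz
      exact ⟨Set.mem_insert_of_mem _ hz, fun hzx => hxB (by rw [← Set.mem_singleton_iff.mp hzx]; exact hz)⟩
  rw [this]
  exact h4

end Pool.Agent.Lib.MPfe8d1b
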