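import Pool.Agent.Lib.MP_fe8d1b_al.Spec

/-!
# MP_fe8d1b_al, module NSC: no clique separates a good configuration
-/

set_option autoImplicit false

namespace Pool.Agent.Lib.MPfe8d1b

namespace NSCM

variable {V : Type} {Γ : SimpleGraph V}

theorem cn_of {B D : Set V} (hDB : D ⊆ B)
    (h1 : ∀ x ∈ D, ∀ y ∈ D, Relation.ReflTransGen (fun a b => Γ.Adj a b ∧ b ∈ B) x y)
    (h2 : ∀ x ∈ B, ∃ x' ∈ D, x = x' ∨ Γ.Adj x x') : Cn Γ B := by
  intro x hx y hy
  obtain ⟨x', hx', h⟩ := h2 x hx
  obtain ⟨y', hy', h'⟩ := h2 y hy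
  have a : Relation.ReflTransGen (fun a b => Γ.Adj a b ∧ b ∈ B) x x' := by
    rcases h with rfl | h
    · exact Relation.ReflTransGen.refl
    · exact Relation.ReflTransGen.single ⟨h, hDB hx'⟩
  have b : Relation.ReflTransGen (fun a b => Γ.Adj a b ∧ b ∈ B) y' y := by
    rcases h' with rfl | h'
    · exact Relation.ReflTransGen.refl
    · exact Relation.ReflTransGen.single ⟨h'.symm, hy⟩
  exact a.trans ((h1 x' hx' y' hy').trans b)

end NSCM

theorem specNSC (hREP : SpecREP) : SpecNSC := by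
  intro V Γ S K T hG C hCS hC
  by_cases hv : ∃ v ∈ C, v ∈ K
  · obtain ⟨v, hvC, hvK⟩ := hv
    refine NSCM.cn_of (D := (S \ K) \ C) (fun x hx => ⟨hx.1.1, hx.2⟩) ?_ ?_
    · intro x hx y hy
      refine hREP Γ (S \ K) (S \ C) hG.cD ?_ x hx.1 ⟨hx.1.1, hx.2⟩ y hy.1 ⟨hy.1.1, hy.2⟩
      intro u hu hu'
      have huC : u ∈ C := by
        by_contra h
        exact hu' ⟨hu.1, h⟩
      by_cases hT : u ∈ T
      · obtain ⟨y', hy'T, hne, htw⟩ := hG.twin u hT
        refine ⟨y', ⟨hG.hT hy'T, fun h => ?_⟩, fun z hz hadj => ?_⟩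
        · have h1 := hC y' h u huC hne
          exact Γ.irrefl ((htw u hu.1).1 h1)
        · have hzS : z ∈ S := by
            rcases hz with h | h
            · exact h.1
            · exact h.1
          exact (htw z hzS).2 hadj
      · obtain ⟨w, hwK, hw⟩ := hG.dom u hu.1 hu.2 hT
        refine ⟨w, ⟨hG.hK hwK, fun h => ?_⟩, fun z hz hadj => ?_⟩
        · have hne : u ≠ w := by
            rintro rfl
            exact hu.2 hwK
          have h1 := hC u huC w h hne
          exact Γ.irrefl (hw w (hG.hK hwK) h1)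
        · have hzS : z ∈ S := by
            rcases hz with h | h
            · exact h.1
            · exact h.1
          exact hw z hzS hadj
    · intro x hx
      by_cases hxK : x ∈ K
      · obtain ⟨y, hyS, hyK, hxy⟩ := hG.nb x hxK
        refine ⟨y, ⟨⟨hyS, hyK⟩, fun hyC => ?_⟩, Or.inr hxy⟩
        have hvx : v ≠ x := by
          rintro rfl
          exact hx.2 hvC
        have hvy : v ≠ y := by
          rintro rfl
          exact hyK hvK
        exact hG.free v (hG.hK hvK) x hx.1 y hyS (hG.clique v hvK x hxK hvx) hxy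
          (hC v hvC y hyC hvy)
      · exact ⟨x, ⟨⟨hx.1, hxK⟩, hx.2⟩, Or.inl rfl⟩
  · have hCK : ∀ x ∈ C, x ∉ K := fun x hx hxK => hv ⟨x, hx, hxK⟩
    have hS : Cn Γ S := by
      refine NSCM.cn_of (D := S \ K) (fun x hx => hx.1) ?_ ?_
      · intro x hx y hy
        have h := hG.cD x hx y hy
        clear hy
        induction h with
        | refl => exact Relation.ReflTransGen.refl
        | tail _ h2 ih => exact ih.tail ⟨h2.1, h2.2.1⟩
      · intro x hx
        by_cases hxK : x ∈ K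
        · obtain ⟨y, hyS, hyK, hxy⟩ := hG.nb x hxK
          exact ⟨y, ⟨hyS, hyK⟩, Or.inr hxy⟩
        · exact ⟨x, ⟨hx, hxK⟩, Or.inl rfl⟩
    intro x hx y hy
    refine hREP Γ S (S \ C) hS ?_ x hx.1 hx y hy.1 hy
    intro u hu hu'
    have huC : u ∈ C := by
      by_contra h
      exact hu' ⟨hu, h⟩
    have hzS : ∀ z, z ∈ S ∪ (S \ C) → z ∈ S := by
      intro z hz
      rcases hz with h | h
      · exact h
      · exact h.1
    by_cases hT : u ∈ T
    · obtain ⟨y', hy'T, hne, htw⟩ := hG.twin u hT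
      refine ⟨y', ⟨hG.hT hy'T, fun h => ?_⟩, fun z hz hadj => (htw z (hzS z hz)).2 hadj⟩
      have h1 := hC y' h u huC hne
      exact Γ.irrefl ((htw u hu).1 h1)
    · obtain ⟨w, hwK, hw⟩ := hG.dom u hu (hCK u huC) hT
      exact ⟨w, ⟨hG.hK hwK, fun h => hCK w h hwK⟩, fun z hz hadj => hw z (hzS z hz) hadj⟩

end Pool.Agent.Lib.MPfe8d1b
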