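import Pool.Agent.Lib.MP_fe8d1b_al.Spec

/-!
# A bilipschitz bijection between `Z/2 * Z/2` and `Z` (PH1)
-/

set_option autoImplicit false

namespace Pool.Agent.Lib.MPfe8d1b

namespace PH1M

/-- exchange `2 j` and `2 j + 1` -/
def fa (m : ℤ) : ℤ := if m % 2 = 0 then m + 1 else m - 1

/-- exchange `2 j` and `2 j - 1` -/
def fb (m : ℤ) : ℤ := if m % 2 = 0 then m - 1 else m + 1

theorem fa_fa (m : ℤ) : fa (fa m) = m := by
  unfold fa; split_ifs <;> omega

theorem fb_fb (m : ℤ) : fb (fb m) = m := by
  unfold fb; split_ifs <;> omega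

/-- `fa` as a permutation -/
def pa : Equiv.Perm ℤ := ⟨fa, fa, fa_fa, fa_fa⟩

/-- `fb` as a permutation -/
def pb : Equiv.Perm ℤ := ⟨fb, fb, fb_fb, fb_fb⟩

variable {X : Type}

/-- the generators -/
def s (x : X) : FV X := PresentedGroup.of x

theorem s_mul_s (x : X) : s x * s x = 1 := by
  have : (FreeGroup.of x * FreeGroup.of x) ∈
      {r : FreeGroup X | ∃ a, r = FreeGroup.of a * FreeGroup.of a} := ⟨x, rfl⟩
  have h := PresentedGroup.one_of_mem this
  rw [map_mul] at h
  exact h

open Classical in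
/-- the permutation of a generator -/
noncomputable def perm (a x : X) : Equiv.Perm ℤ := if x = a then pa else pb

theorem perm_mul (a x : X) : perm a x * perm a x = 1 := by
  unfold perm
  split_ifs
  · ext m
    exact fa_fa m
  · ext m
    exact fb_fb m

/-- the action on the integers -/
noncomputable def act (a : X) : FV X →* Equiv.Perm ℤ := PresentedGroup.toGroup (f := perm a) (by
  rintro r ⟨x, rfl⟩
  rw [map_mul, FreeGroup.lift_apply_of]
  exact perm_mul a x)

theorem act_s (a x : X) : act a (s x) = perm a x := PresentedGroup.toGroup.of _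

theorem act_a (a : X) (m : ℤ) : act a (s a) m = fa m := by
  rw [act_s, perm, if_pos rfl]; rfl

theorem act_b {a b : X} (h : a ≠ b) (m : ℤ) : act a (s b) m = fb m := by
  rw [act_s, perm, if_neg (Ne.symm h)]; rfl

/-- the inverse of the orbit map -/
def P (a b : X) (m : ℤ) : FV X :=
  if m % 2 = 0 then (s b * s a) ^ (m / 2) else s a * (s b * s a) ^ (m / 2)

theorem P_even (a b : X) (j : ℤ) : P a b (2 * j) = (s b * s a) ^ j := by
  unfold P
  rw [if_pos (by omega)]
  congr 1
  omega

theorem P_odd (a b : X) (j : ℤ) : P a b (2 * j + 1) = s a * (s b * s a) ^ j := by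
  unfold P
  rw [if_neg (by omega)]
  congr 2
  omega

theorem fa_even (j : ℤ) : fa (2 * j) = 2 * j + 1 := by
  unfold fa; rw [if_pos (by omega)]

theorem fa_odd (j : ℤ) : fa (2 * j + 1) = 2 * j := by
  unfold fa; rw [if_neg (by omega)]; omega

theorem fb_even (j : ℤ) : fb (2 * j) = 2 * (j - 1) + 1 := by
  unfold fb; rw [if_pos (by omega)]; omega

theorem fb_odd (j : ℤ) : fb (2 * j + 1) = 2 * (j + 1) := by
  unfold fb; rw [if_neg (by omega)]; omega

theorem P_fa (a b : X) (m : ℤ) : P a b (fa m) = s a * P a b m := by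
  rcases Int.even_or_odd' m with ⟨j, rfl | rfl⟩
  · rw [fa_even, P_odd, P_even]
  · rw [fa_odd, P_even, P_odd, ← mul_assoc, s_mul_s, one_mul]

theorem P_fb (a b : X) (m : ℤ) : P a b (fb m) = s b * P a b m := by
  rcases Int.even_or_odd' m with ⟨j, rfl | rfl⟩
  · rw [fb_even, P_odd, P_even]
    have h : (s b * s a) ^ j = s b * s a * (s b * s a) ^ (j - 1) := by
      rw [← zpow_one_add]
      congr 1
      omega
    rw [h, ← mul_assoc, ← mul_assoc, s_mul_s, one_mul]
  · rw [fb_odd, P_even, P_odd, ← mul_assoc, ← zpow_one_add, add_comm]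

theorem P_act {a b : X} (hab : a ≠ b) (hu : ∀ x, x = a ∨ x = b) (k : FV X) :
    ∀ m, P a b (act a k m) = k * P a b m := by
  have hk : k ∈ Subgroup.closure (Set.range (PresentedGroup.of (rels :=
      {r : FreeGroup X | ∃ a, r = FreeGroup.of a * FreeGroup.of a}))) := by
    rw [PresentedGroup.closure_range_of]; exact Subgroup.mem_top k
  induction hk using Subgroup.closure_induction with
  | mem y hy =>
    obtain ⟨x, rfl⟩ := hy
    intro m
    rcases hu x with rfl | rfl
    · have := act_a x m
      unfold s at this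
      rw [this, P_fa]; rfl
    · have := act_b hab m
      unfold s at this
      rw [this, P_fb]; rfl
  | one => intro m; simp
  | mul y z _ _ hy hz =>
    intro m
    rw [map_mul, Equiv.Perm.mul_apply, hy, hz, mul_assoc]
  | inv y _ hy =>
    intro m
    have h := hy (act a y⁻¹ m)
    rw [← Equiv.Perm.mul_apply, ← map_mul, mul_inv_cancel, map_one, Equiv.Perm.one_apply] at h
    rw [h, inv_mul_cancel_left]

/-- the orbit map -/
noncomputable def orb (a : X) (k : FV X) : ℤ := act a k 0

theorem orb_mul (a : X) (x k : FV X) : orb a (x * k) = act a x (orb a k) := by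
  unfold orb
  rw [map_mul, Equiv.Perm.mul_apply]

theorem orb_injective {a b : X} (hab : a ≠ b) (hu : ∀ x, x = a ∨ x = b) :
    Function.Injective (orb a) := by
  intro k k' h
  have h1 := P_act hab hu k 0
  have h2 := P_act hab hu k' 0
  have h3 : act a k 0 = act a k' 0 := h
  rw [h3, h2] at h1
  exact (mul_right_cancel h1).symm

theorem orb_succ {a b : X} (hab : a ≠ b) (k : FV X) : ∃ x : X, orb a (s x * k) = orb a k + 1 := by
  rcases Int.even_or_odd' (orb a k) with ⟨j, h | h⟩
  · exact ⟨a, by rw [orb_mul, act_a, h, fa_even]⟩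
  · exact ⟨b, by rw [orb_mul, act_b hab, h, fb_odd]; omega⟩

theorem orb_pred {a b : X} (hab : a ≠ b) (k : FV X) : ∃ x : X, orb a (s x * k) = orb a k - 1 := by
  rcases Int.even_or_odd' (orb a k) with ⟨j, h | h⟩
  · exact ⟨b, by rw [orb_mul, act_b hab, h, fb_even]; omega⟩
  · exact ⟨a, by rw [orb_mul, act_a, h, fa_odd]; omega⟩

theorem orb_surjective {a b : X} (hab : a ≠ b) : Function.Surjective (orb a) := by
  intro m
  induction m using Int.induction_on with
  | zero => exact ⟨1, by simp [orb]⟩
  | succ i ih =>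
    obtain ⟨k, hk⟩ := ih
    obtain ⟨x, hx⟩ := orb_succ hab k
    exact ⟨_, by rw [hx, hk]⟩
  | pred i ih =>
    obtain ⟨k, hk⟩ := ih
    obtain ⟨x, hx⟩ := orb_pred hab k
    exact ⟨_, by rw [hx, hk]⟩

theorem orb_gen (a x : X) (k : FV X) :
    orb a (s x * k) = orb a k + 1 ∨ orb a (s x * k) = orb a k - 1 := by
  rw [orb_mul, act_s]
  unfold perm
  split_ifs
  · show fa _ = _ ∨ fa _ = _
    unfold fa; split_ifs <;> omega
  · show fb _ = _ ∨ fb _ = _
    unfold fb; split_ifs <;> omega

end PH1M

open PH1M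

theorem specPH1 : SpecPH1 := by
  intro X hX
  obtain ⟨a, b, hab, hu'⟩ := Nat.card_eq_two_iff.1 hX
  have hu : ∀ x : X, x = a ∨ x = b := by
    intro x
    have : x ∈ ({a, b} : Set X) := by rw [hu']; exact Set.mem_univ x
    simpa using this
  let φ : FV X ≃ FreeGroup Unit :=
    (Equiv.ofBijective (orb a) ⟨orb_injective hab hu, orb_surjective hab⟩).trans
      FreeGroup.freeGroupUnitEquivInt.symm
  have hφ : ∀ k, φ k = FreeGroup.of () ^ orb a k := fun k => rfl
  refine ⟨Unit, inferInstance, φ, ?_, ?_⟩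
  · intro x k
    have h1 : Len (Set.range (FreeGroup.of (α := Unit))) (FreeGroup.of ()) 1 :=
      Len.of_mem ⟨(), rfl⟩
    rw [hφ, hφ]
    rcases orb_gen a x k with h | h
    · have e : FreeGroup.of () ^ orb a (PresentedGroup.of x * k) * (FreeGroup.of () ^ orb a k)⁻¹ =
          FreeGroup.of () := by
        have h' : orb a (PresentedGroup.of x * k) = orb a k + 1 := h
        rw [h', ← zpow_neg, ← zpow_add]
        have : orb a k + 1 + -orb a k = 1 := by omega
        rw [this, zpow_one]
      rw [e]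
      exact h1.mono (by norm_num)
    · have e : FreeGroup.of () ^ orb a (PresentedGroup.of x * k) * (FreeGroup.of () ^ orb a k)⁻¹ =
          (FreeGroup.of ())⁻¹ := by
        have h' : orb a (PresentedGroup.of x * k) = orb a k - 1 := h
        rw [h', ← zpow_neg, ← zpow_add]
        have : orb a k - 1 + -orb a k = -1 := by omega
        rw [this, zpow_neg, zpow_one]
      rw [e]
      exact h1.inv.mono (by norm_num)
  · intro t k
    obtain ⟨x, hx⟩ := orb_succ hab (φ.symm k)
    have e : φ.symm (FreeGroup.of t * k) = s x * φ.symm k := by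
      rw [Equiv.symm_apply_eq, hφ, hx, add_comm, zpow_add, zpow_one, ← hφ, Equiv.apply_symm_apply]
    rw [e, mul_inv_cancel_right]
    exact (Len.of_mem ⟨x, rfl⟩ : Len (gens _) (s x) 1).mono (by norm_num)

end Pool.Agent.Lib.MPfe8d1b
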