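import Pool.Agent.Lib.MP_fe8d1b_al.Spec

/-!
# PH2: a free product of at least three groups of order two is bilipschitz to a free group
-/

set_option autoImplicit false
set_option linter.unusedSectionVars false

namespace Pool.Agent.Lib.MPfe8d1b

namespace PH2M

variable {X : Type} [DecidableEq X] (x₀ : X)

/-- the generators of the free group -/
abbrev TT : Type := {x : X // x ≠ x₀}

/-- the free group -/
abbrev F2 : Type := FreeGroup (TT x₀)

/-- the generators -/
def s (j : X) : FV X := PresentedGroup.of j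

theorem s_mul_s (j : X) : s j * s j = 1 := by
  have : (FreeGroup.of j * FreeGroup.of j) ∈
      {r : FreeGroup X | ∃ a, r = FreeGroup.of a * FreeGroup.of a} := ⟨j, rfl⟩
  have h := PresentedGroup.one_of_mem this
  rw [map_mul] at h
  exact h

theorem s_inv (j : X) : (s j)⁻¹ = s j := inv_eq_of_mul_eq_one_right (s_mul_s j)

/-- The embedding of the even subgroup. -/
def ι : F2 x₀ →* FV X := FreeGroup.lift fun i => s x₀ * s i.1

theorem ι_of (i : TT x₀) : ι x₀ (FreeGroup.of i) = s x₀ * s i.1 := by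
  simp [ι]

/-- The underlying set for the action. -/
abbrev B : Type := Bool × F2 x₀

/-- The permutation of `B` given by the generator `x₀`. -/
def perm0 : Equiv.Perm (B x₀) where
  toFun p := (!p.1, p.2)
  invFun p := (!p.1, p.2)
  left_inv p := by simp
  right_inv p := by simp

/-- The function of `B` given by the other generators. -/
def fn (i : TT x₀) (p : B x₀) : B x₀ :=
  match p with
  | (false, g) => (true, FreeGroup.of i * g)
  | (true, g) => (false, (FreeGroup.of i)⁻¹ * g)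

theorem fn_fn (i : TT x₀) (p : B x₀) : fn x₀ i (fn x₀ i p) = p := by
  obtain ⟨b, g⟩ := p
  cases b <;> simp [fn]

/-- The permutation of `B` given by the other generators. -/
def permS (i : TT x₀) : Equiv.Perm (B x₀) where
  toFun := fn x₀ i
  invFun := fn x₀ i
  left_inv := fn_fn x₀ i
  right_inv := fn_fn x₀ i

/-- The permutations given by the generators. -/
def gns (j : X) : Equiv.Perm (B x₀) := if h : j = x₀ then perm0 x₀ else permS x₀ ⟨j, h⟩

theorem gns_base : gns x₀ x₀ = perm0 x₀ := by simp [gns]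

theorem gns_ne (i : TT x₀) : gns x₀ i.1 = permS x₀ i := by simp [gns, i.2]

theorem gns_mul (j : X) : gns x₀ j * gns x₀ j = 1 := by
  by_cases h : j = x₀
  · subst h
    rw [gns_base]
    ext1 p
    simp [perm0]
  · have h1 := gns_ne x₀ ⟨j, h⟩
    simp only at h1
    rw [h1]
    ext1 p
    simp only [Equiv.Perm.mul_apply, Equiv.Perm.one_apply]
    exact fn_fn x₀ _ p

/-- The action on `B`. -/
def act : FV X →* Equiv.Perm (B x₀) := PresentedGroup.toGroup (f := gns x₀) (by
  rintro r ⟨a, rfl⟩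
  rw [map_mul, FreeGroup.lift_apply_of]
  exact gns_mul x₀ a)

theorem act_s (j : X) : act x₀ (s j) = gns x₀ j := PresentedGroup.toGroup.of _

theorem act_s_zero (p : B x₀) : act x₀ (s x₀) p = (!p.1, p.2) := by
  rw [act_s, gns_base]; rfl

theorem act_s_succ (i : TT x₀) (p : B x₀) : act x₀ (s i.1) p = fn x₀ i p := by
  rw [act_s, gns_ne]; rfl

theorem act_ι (g h : F2 x₀) : act x₀ (ι x₀ g) (false, h) = (false, g * h) := by
  induction g using FreeGroup.induction_on generalizing h with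
  | C1 => simp
  | of i =>
    change act x₀ (ι x₀ (FreeGroup.of i)) (false, h) = (false, FreeGroup.of i * h)
    rw [ι_of, map_mul, Equiv.Perm.mul_apply, act_s_succ, act_s_zero]
    rfl
  | inv_of i _ =>
    change act x₀ (ι x₀ (FreeGroup.of i)⁻¹) (false, h) = (false, (FreeGroup.of i)⁻¹ * h)
    rw [map_inv, ι_of, mul_inv_rev, s_inv, s_inv, map_mul, Equiv.Perm.mul_apply, act_s_zero,
      act_s_succ]
    rfl
  | mul x y hx hy =>
    rw [map_mul, map_mul, Equiv.Perm.mul_apply, hy, hx, mul_assoc]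

/-- The orbit map. -/
def T (k : FV X) : B x₀ := act x₀ k (false, 1)

/-- The inverse of the orbit map. -/
def S (p : B x₀) : FV X :=
  match p with
  | (false, g) => ι x₀ g
  | (true, g) => s x₀ * ι x₀ g

theorem S_act (j : X) (p : B x₀) : S x₀ (act x₀ (s j) p) = s j * S x₀ p := by
  by_cases hj : j = x₀
  · subst hj
    rw [act_s_zero]
    obtain ⟨b, g⟩ := p
    cases b
    · rfl
    · simp only [Bool.not_true, S]
      rw [← mul_assoc, s_mul_s, one_mul]
  · obtain ⟨i, rfl⟩ : ∃ i : TT x₀, i.1 = j := ⟨⟨j, hj⟩, rfl⟩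
    rw [act_s_succ]
    obtain ⟨b, g⟩ := p
    cases b
    · simp only [fn, S]
      rw [map_mul, ι_of, ← mul_assoc, ← mul_assoc, s_mul_s, one_mul]
    · simp only [fn, S]
      rw [map_mul, map_inv, ι_of, mul_inv_rev, s_inv, s_inv, mul_assoc]

/-- The set of elements for which the inverse of the orbit map is equivariant. -/
def eqv : Subgroup (FV X) where
  carrier := {k | ∀ p, S x₀ (act x₀ k p) = k * S x₀ p}
  one_mem' := by
    intro p
    simp
  mul_mem' := by
    intro a b ha hb p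
    rw [map_mul, Equiv.Perm.mul_apply, ha, hb, mul_assoc]
  inv_mem' := by
    intro a ha p
    have h := ha (act x₀ a⁻¹ p)
    have e : act x₀ a (act x₀ a⁻¹ p) = p := by
      rw [← Equiv.Perm.mul_apply, ← map_mul, mul_inv_cancel, map_one, Equiv.Perm.one_apply]
    rw [e] at h
    rw [h, inv_mul_cancel_left]

theorem S_T (k : FV X) : S x₀ (T x₀ k) = k := by
  have h : k ∈ eqv x₀ := by
    apply PresentedGroup.generated_by
    intro j p
    exact S_act x₀ j p
  have h1 := h (false, 1)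
  have h2 : S x₀ ((false, 1) : B x₀) = 1 := by simp [S]
  rw [h2, mul_one] at h1
  exact h1

theorem T_mul (j : X) (k : FV X) : T x₀ (s j * k) = act x₀ (s j) (T x₀ k) := by simp [T]

theorem T_injective : Function.Injective (T x₀) := fun a b h => by
  rw [← S_T x₀ a, h, S_T]

variable (t₀ t₁ : TT x₀) (ht : t₀ ≠ t₁)

/-- the letters used in the first injection -/
def letter (b : Bool) : TT x₀ × Bool := if b then (t₁, true) else (t₀, true)

open Classical in
/-- The first injection. -/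
noncomputable def I (p : B x₀) : F2 x₀ :=
  if p.2 ∈ FreeGroup.startsWith ((letter x₀ t₀ t₁ p.1).1, !(letter x₀ t₀ t₁ p.1).2) then p.2
  else FreeGroup.mk [letter x₀ t₀ t₁ p.1] * p.2

theorem I_spec (p : B x₀) :
    (I x₀ t₀ t₁ p ∈ FreeGroup.startsWith ((letter x₀ t₀ t₁ p.1).1, false) ∧
      I x₀ t₀ t₁ p = p.2) ∨
    (I x₀ t₀ t₁ p ∈ FreeGroup.startsWith ((letter x₀ t₀ t₁ p.1).1, true) ∧
      I x₀ t₀ t₁ p = FreeGroup.mk [letter x₀ t₀ t₁ p.1] * p.2) := by
  have hl : (letter x₀ t₀ t₁ p.1).2 = true := by unfold letter; split <;> rfl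
  unfold I
  split
  · next h =>
    left
    rw [hl] at h
    exact ⟨h, rfl⟩
  · next h =>
    right
    refine ⟨?_, rfl⟩
    have := FreeGroup.startsWith_mk_mul p.2 h
    have h2 : letter x₀ t₀ t₁ p.1 = ((letter x₀ t₀ t₁ p.1).1, true) := Prod.ext rfl hl
    rw [← h2]
    exact this

include ht in
theorem I_injective : Function.Injective (I x₀ t₀ t₁) := by
  intro p p' h
  have hdisj : ∀ {w w' : TT x₀ × Bool} {g : F2 x₀}, g ∈ FreeGroup.startsWith w →
      g ∈ FreeGroup.startsWith w' → w = w' := by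
    intro w w' g h1 h2
    by_contra hne
    exact Set.disjoint_left.1 (FreeGroup.startsWith.disjoint_iff_ne.2 hne) h1 h2
  have hb : ∀ b b', (letter x₀ t₀ t₁ b).1 = (letter x₀ t₀ t₁ b').1 → b = b' := by
    intro b b'
    cases b <;> cases b' <;> simp [letter, ht, ht.symm]
  rcases I_spec x₀ t₀ t₁ p with ⟨h1, h2⟩ | ⟨h1, h2⟩ <;>
    rcases I_spec x₀ t₀ t₁ p' with ⟨h3, h4⟩ | ⟨h3, h4⟩ <;>
    rw [← h] at h3
  · have := hdisj h1 h3
    have h5 := hb _ _ (Prod.ext_iff.1 this).1
    exact Prod.ext h5 (by rw [← h2, ← h4, h])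
  · have := hdisj h1 h3
    simp at this
  · have := hdisj h1 h3
    simp at this
  · have := hdisj h1 h3
    have h5 := hb _ _ (Prod.ext_iff.1 this).1
    refine Prod.ext h5 ?_
    rw [h, h4, h5] at h2
    exact (mul_left_cancel h2).symm

theorem ι_injective : Function.Injective (ι x₀) := by
  intro g h hgh
  have h1 := act_ι x₀ g 1
  have h2 := act_ι x₀ h 1
  rw [hgh, h2] at h1
  simpa using h1.symm

/-- the generating set of `FV X` -/
abbrev gs : Set (FV X) := gens {r : FreeGroup X | ∃ a, r = FreeGroup.of a * FreeGroup.of a}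

/-- the generating set of the free group -/
abbrev fs : Set (F2 x₀) := Set.range FreeGroup.of

/-- Length of the image of a generator. -/
theorem len_s (j : X) : Len gs (s j) 1 := Len.of_mem ⟨j, rfl⟩

theorem len_ι_of (i : TT x₀) : Len gs (ι x₀ (FreeGroup.of i)) 2 := by
  rw [ι_of]
  exact (len_s x₀).mul (len_s i.1)

/-- The relation satisfied by both injections. -/
def Rel (k : FV X) (g : F2 x₀) : Prop :=
  Len (fs x₀) (g * (T x₀ k).2⁻¹) 1 ∧ Len gs (k * (ι x₀ g)⁻¹) 3

theorem rel_ι (g : F2 x₀) : Rel x₀ (ι x₀ g) g := by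
  have : T x₀ (ι x₀ g) = (false, g) := by simp [T, act_ι]
  constructor
  · rw [this, mul_inv_cancel]; exact Len.one _ 1
  · rw [mul_inv_cancel]; exact Len.one _ 3

theorem len_sub (p : B x₀) : Len gs (S x₀ p * (ι x₀ p.2)⁻¹) 1 := by
  obtain ⟨b, g⟩ := p
  cases b
  · simp only [S, mul_inv_cancel]; exact Len.one _ _
  · simp only [S, mul_inv_cancel_right]; exact len_s x₀

theorem mk_letter (b : Bool) :
    FreeGroup.mk [letter x₀ t₀ t₁ b] = FreeGroup.of (letter x₀ t₀ t₁ b).1 := by
  cases b <;> rfl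

theorem rel_I (k : FV X) : Rel x₀ k (I x₀ t₀ t₁ (T x₀ k)) := by
  rcases I_spec x₀ t₀ t₁ (T x₀ k) with ⟨-, h⟩ | ⟨-, h⟩
  · rw [Rel, h]
    constructor
    · rw [mul_inv_cancel]; exact Len.one _ 1
    · have := len_sub x₀ (T x₀ k)
      rw [S_T] at this
      exact this.mono (by norm_num)
  · rw [Rel, h]
    constructor
    · rw [mul_inv_cancel_right, mk_letter]
      exact Len.of_mem ⟨_, rfl⟩
    · have h1 := len_sub x₀ (T x₀ k)
      rw [S_T] at h1
      rw [mk_letter, map_mul, mul_inv_rev, ← mul_assoc]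
      exact h1.mul (len_ι_of x₀ _).inv

include ht in
/-- There is a bilipschitz bijection. -/
theorem exists_phi : ∃ φ : FV X ≃ F2 x₀,
    (∀ (j : X) (k : FV X), Len (fs x₀) (φ (PresentedGroup.of j * k) * (φ k)⁻¹) 8) ∧
    (∀ (i : TT x₀) (g : F2 x₀), Len gs (φ.symm (FreeGroup.of i * g) * (φ.symm g)⁻¹) 8) := by
  obtain ⟨h, hbij, hR⟩ := Function.Embedding.schroeder_bernstein_of_rel
    (f := fun k => I x₀ t₀ t₁ (T x₀ k)) (g := ι x₀)
    ((I_injective x₀ t₀ t₁ ht).comp (T_injective x₀)) (ι_injective x₀) (Rel x₀)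
    (rel_I x₀ t₀ t₁) (rel_ι x₀)
  set φ := Equiv.ofBijective h hbij with hφ
  have hRφ : ∀ k, Rel x₀ k (φ k) := hR
  refine ⟨φ, ?_, ?_⟩
  · intro j k
    have h1 := (hRφ (s j * k)).1
    have h2 := (hRφ k).1
    have h3 : Len (fs x₀) ((T x₀ (s j * k)).2 * (T x₀ k).2⁻¹) 1 := by
      rw [T_mul]
      by_cases hj : j = x₀
      · subst hj
        rw [act_s_zero]
        simp only [mul_inv_cancel]
        exact Len.one _ _
      · obtain ⟨i, rfl⟩ : ∃ i : TT x₀, i.1 = j := ⟨⟨j, hj⟩, rfl⟩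
        rw [act_s_succ]
        rcases T x₀ k with ⟨b, g⟩
        cases b
        · simp only [fn, mul_inv_cancel_right]
          exact Len.of_mem ⟨_, rfl⟩
        · simp only [fn, mul_inv_cancel_right]
          exact (Len.of_mem ⟨_, rfl⟩ : Len (fs x₀) (FreeGroup.of i) 1).inv
    have h4 : φ (PresentedGroup.of j * k) * (φ k)⁻¹ =
        (φ (s j * k) * (T x₀ (s j * k)).2⁻¹) * ((T x₀ (s j * k)).2 * (T x₀ k).2⁻¹) *
          (φ k * (T x₀ k).2⁻¹)⁻¹ := by
      change φ (s j * k) * (φ k)⁻¹ = _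
      group
    rw [h4]
    exact ((h1.mul h3).mul h2.inv).mono (by norm_num)
  · intro i g
    have h1 := (hRφ (φ.symm (FreeGroup.of i * g))).2
    have h2 := (hRφ (φ.symm g)).2
    rw [Equiv.apply_symm_apply] at h1 h2
    have h3 := (h1.mul (len_ι_of x₀ i)).mul h2.inv
    have h4 : φ.symm (FreeGroup.of i * g) * (ι x₀ (FreeGroup.of i * g))⁻¹ *
        ι x₀ (FreeGroup.of i) * (φ.symm g * (ι x₀ g)⁻¹)⁻¹ =
        φ.symm (FreeGroup.of i * g) * (φ.symm g)⁻¹ := by
      rw [map_mul (ι x₀)]; group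
    rw [h4] at h3
    exact h3.mono (by norm_num)

end PH2M

theorem specPH2 : SpecPH2 := by
  intro X _ hX
  classical
  have : Fintype X := Fintype.ofFinite X
  rw [Nat.card_eq_fintype_card] at hX
  obtain ⟨a, b, c, hab, hac, hbc⟩ := Fintype.two_lt_card_iff.1 (by omega : 2 < Fintype.card X)
  obtain ⟨φ, h1, h2⟩ := PH2M.exists_phi a ⟨b, hab.symm⟩ ⟨c, hac.symm⟩
    (fun h => hbc (congrArg Subtype.val h))
  exact ⟨PH2M.TT a, inferInstance, φ, h1, h2⟩

end Pool.Agent.Lib.MPfe8d1b
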