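import Pool.Agent.Lib.MP_fe8d1b_al.Spec

/-!
# REP: replacement of vertices on a path (MP_fe8d1b_al)
-/

set_option autoImplicit false

namespace Pool.Agent.Lib.MPfe8d1b

theorem specREP : SpecREP := by
  intro V Γ A B hA hrep x hxA hxB y hyA hyB
  have key : ∀ u : V, Relation.ReflTransGen (fun a b => Γ.Adj a b ∧ b ∈ A) x u →
      ∃ r ∈ B, Relation.ReflTransGen (fun a b => Γ.Adj a b ∧ b ∈ B) x r ∧
        (r = u ∨ (u ∉ B ∧ ∀ z ∈ A ∪ B, Γ.Adj u z → Γ.Adj r z)) := by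
    intro u hu
    induction hu with
    | refl => exact ⟨x, hxB, Relation.ReflTransGen.refl, Or.inl rfl⟩
    | @tail u u' _ hstep ih =>
      obtain ⟨r, hrB, hxr, hr⟩ := ih
      obtain ⟨huu', hu'A⟩ := hstep
      have hru' : Γ.Adj r u' := by
        rcases hr with h | h
        · rw [h]; exact huu'
        · exact h.2 u' (Or.inl hu'A) huu'
      by_cases hu'B : u' ∈ B
      · exact ⟨u', hu'B, hxr.tail ⟨hru', hu'B⟩, Or.inl rfl⟩
      · obtain ⟨r', hr'B, hr'⟩ := hrep u' hu'A hu'B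
        have hrr' : Γ.Adj r r' := (hr' r (Or.inr hrB) hru'.symm).symm
        exact ⟨r', hr'B, hxr.tail ⟨hrr', hr'B⟩, Or.inr ⟨hu'B, hr'⟩⟩
  obtain ⟨r, _, hxr, hr⟩ := key y (hA x hxA y hyA)
  rcases hr with h | h
  · rw [← h]; exact hxr
  · exact absurd hyB h.1

end Pool.Agent.Lib.MPfe8d1b
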