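import Pool.Agent.Lib.MP_fe8d1b_al.Spec

/-!
# ST1: a smaller good configuration (MP_fe8d1b_al)
-/

set_option autoImplicit false

namespace Pool.Agent.Lib.MPfe8d1b

namespace ST1M

/-- Two different points of a connected set: the first one has a neighbour in it. -/
theorem step {V : Type} {Γ : SimpleGraph V} {A : Set V} (h : Cn Γ A) {x y : V} (hx : x ∈ A)
    (hy : y ∈ A) (hxy : x ≠ y) : ∃ z ∈ A, Γ.Adj x z := by
  rcases Relation.ReflTransGen.cases_head (h x hx y hy) with h1 | ⟨z, h1, -⟩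
  · exact absurd h1 hxy
  · exact ⟨z, h1.2, h1.1⟩

end ST1M

open ST1M

theorem specST1 (hNCT : SpecNCT) : SpecST1 := by
  intro V _ Γ S K T hG hTne hex
  obtain ⟨x₀, hx₀S, hx₀K, hx₀T⟩ := hex
  obtain ⟨t₀, ht₀⟩ := hTne
  have hTA : T ⊆ S \ K := fun t ht => ⟨hG.hT ht, hG.disj t ht⟩
  have hne : T ≠ S \ K := by
    intro h
    exact hx₀T (h ▸ (⟨hx₀S, hx₀K⟩ : x₀ ∈ S \ K))
  obtain ⟨x, hxA, hxT, hcn⟩ := hNCT Γ (S \ K) T hG.cD hTA ⟨t₀, ht₀⟩ hne hG.cT
  by_cases hnb : ∀ v ∈ K, ∃ y ∈ S, y ∉ K ∧ y ≠ x ∧ Γ.Adj v y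
  · refine ⟨x, hxA.1, K, T, ?_⟩
    have hset : (S \ {x}) \ K = (S \ K) \ {x} := by
      ext z
      constructor
      · rintro ⟨⟨h1, h2⟩, h3⟩
        exact ⟨⟨h1, h3⟩, h2⟩
      · rintro ⟨⟨h1, h2⟩, h3⟩
        exact ⟨⟨h1, h3⟩, h2⟩
    constructor
    · intro a ha b hb c hc
      exact hG.free a ha.1 b hb.1 c hc.1
    · intro v hv
      refine ⟨hG.hK hv, ?_⟩
      intro h
      have h' : v = x := h
      exact hxA.2 (h' ▸ hv)
    · intro t ht
      refine ⟨hG.hT ht, ?_⟩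
      intro h
      have h' : t = x := h
      exact hxT (h' ▸ ht)
    · exact hG.disj
    · exact hG.clique
    · refine ⟨t₀, ⟨hG.hT ht₀, ?_⟩, hG.disj t₀ ht₀⟩
      intro h
      have h' : t₀ = x := h
      exact hxT (h' ▸ ht₀)
    · intro t ht
      obtain ⟨y, hy, hyt, hz⟩ := hG.twin t ht
      exact ⟨y, hy, hyt, fun z hzS => hz z hzS.1⟩
    · intro y hy hyK hyT
      obtain ⟨v, hv, hz⟩ := hG.dom y hy.1 hyK hyT
      exact ⟨v, hv, fun z hzS => hz z hzS.1⟩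
    · exact hG.cT
    · rw [hset]
      exact hcn
    · intro v hv
      obtain ⟨y, hyS, hyK, hyx, hadj⟩ := hnb v hv
      exact ⟨y, ⟨hyS, hyx⟩, hyK, hadj⟩
  · push Not at hnb
    obtain ⟨v, hv, hno⟩ := hnb
    obtain ⟨y₁, hy₁S, hy₁K, hadj₁⟩ := hG.nb v hv
    have hy₁x : y₁ = x := by
      by_contra h
      exact hno y₁ hy₁S hy₁K h hadj₁
    have hadj : Γ.Adj v x := hy₁x ▸ hadj₁
    refine ⟨v, hG.hK hv, K \ {v}, T, ?_⟩
    have hTv : ∀ t ∈ T, t ≠ v := by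
      intro t ht h
      exact hG.disj t ht (h ▸ hv)
    have hset : (S \ {v}) \ (K \ {v}) = S \ K := by
      ext z
      constructor
      · rintro ⟨⟨h1, h2⟩, h3⟩
        exact ⟨h1, fun h => h3 ⟨h, h2⟩⟩
      · rintro ⟨h1, h2⟩
        refine ⟨⟨h1, ?_⟩, fun h => h2 h.1⟩
        intro h
        have h' : z = v := h
        exact h2 (h' ▸ hv)
    constructor
    · intro a ha b hb c hc
      exact hG.free a ha.1 b hb.1 c hc.1
    · rintro w ⟨hw, hwv⟩
      exact ⟨hG.hK hw, hwv⟩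
    · intro t ht
      exact ⟨hG.hT ht, hTv t ht⟩
    · intro t ht h
      exact hG.disj t ht h.1
    · intro a ha b hb
      exact hG.clique a ha.1 b hb.1
    · exact ⟨t₀, ⟨hG.hT ht₀, hTv t₀ ht₀⟩, fun h => hG.disj t₀ ht₀ h.1⟩
    · intro t ht
      obtain ⟨y, hy, hyt, hz⟩ := hG.twin t ht
      exact ⟨y, hy, hyt, fun z hzS => hz z hzS.1⟩
    · intro y hy hyK hyT
      have hyK' : y ∉ K := fun h => hyK ⟨h, hy.2⟩
      obtain ⟨w, hw, hz⟩ := hG.dom y hy.1 hyK' hyT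
      by_cases hwv : w = v
      · exfalso
        rw [hwv] at hz
        have hyx : y ≠ x := by
          intro h
          have h1 : Γ.Adj y v := by rw [h]; exact hadj.symm
          exact Γ.loopless.irrefl v (hz v (hG.hK hv) h1)
        have hyA : y ∈ (S \ K) \ {x} := ⟨⟨hy.1, hyK'⟩, hyx⟩
        have htA : t₀ ∈ (S \ K) \ {x} := by
          refine ⟨hTA ht₀, ?_⟩
          intro h
          have h' : t₀ = x := h
          exact hxT (h' ▸ ht₀)
        have hyt : y ≠ t₀ := by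
          intro h
          exact hyT (h ▸ ht₀)
        obtain ⟨z, hzA, hyz⟩ := step hcn hyA htA hyt
        exact hno z hzA.1.1 hzA.1.2 hzA.2 (hz z hzA.1.1 hyz)
      · exact ⟨w, ⟨hw, hwv⟩, fun z hzS => hz z hzS.1⟩
    · exact hG.cT
    · rw [hset]
      exact hG.cD
    · rintro w ⟨hw, hwv⟩
      obtain ⟨y, hyS, hyK, hwy⟩ := hG.nb w hw
      refine ⟨y, ⟨hyS, ?_⟩, fun h => hyK h.1, hwy⟩
      intro h
      have h' : y = v := h
      exact hyK (h' ▸ hv)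

end Pool.Agent.Lib.MPfe8d1b
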