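import Pool.Agent.Lib.MP_fe8d1b_al.Spec

/-!
# ST2: everything outside `K` is dominated (MP_fe8d1b_al)
-/

set_option autoImplicit false

namespace Pool.Agent.Lib.MPfe8d1b

namespace ST2M

/-- Two different points of a connected set: the first one has a neighbour in it. -/
theorem step {V : Type} {Γ : SimpleGraph V} {A : Set V} (h : Cn Γ A) {x y : V} (hx : x ∈ A)
    (hy : y ∈ A) (hxy : x ≠ y) : ∃ z ∈ A, Γ.Adj x z := by
  rcases Relation.ReflTransGen.cases_head (h x hx y hy) with h1 | ⟨z, h1, -⟩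
  · exact absurd h1 hxy
  · exact ⟨z, h1.2, h1.1⟩

end ST2M

open ST2M

theorem specST2 (hNCT : SpecNCT) : SpecST2 := by
  intro V _ Γ S K hG
  obtain ⟨y₀, hy₀S, hy₀K⟩ := hG.ne
  obtain ⟨v, hv, hdv⟩ := hG.dom y₀ hy₀S hy₀K (fun h => h)
  have hvS : v ∈ S := hG.hK hv
  have hirr : ∀ u, ¬ Γ.Adj u u := fun u => Γ.loopless.irrefl u
  have hvy₀ : ¬ Γ.Adj v y₀ := fun h => hirr v (hdv v hvS h.symm)
  obtain ⟨y₁, hy₁S, hy₁K, hvy₁⟩ := hG.nb v hv
  have hy01 : y₁ ≠ y₀ := fun h => hvy₀ (h ▸ hvy₁)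
  obtain ⟨w, hw, hdw⟩ := hG.dom y₁ hy₁S hy₁K (fun h => h)
  have hwS : w ∈ S := hG.hK hw
  have hwv : Γ.Adj w v := hdw v hvS hvy₁.symm
  have hwy₁ : ¬ Γ.Adj w y₁ := fun h => hirr w (hdw w hwS h.symm)
  have hK2 : ∀ u ∈ K, u = v ∨ u = w := by
    intro u hu
    by_contra h
    push Not at h
    have h1 : Γ.Adj v u := hG.clique v hv u hu h.1.symm
    have h2 : Γ.Adj u w := hG.clique u hu w hw h.2
    exact hG.free v hvS u (hG.hK hu) w hwS h1 h2 hwv.symm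
  have hA₀ : y₀ ∈ S \ K := ⟨hy₀S, hy₀K⟩
  have hA₁ : y₁ ∈ S \ K := ⟨hy₁S, hy₁K⟩
  -- the dominated points
  have hstar : ∀ y ∈ S \ K, ∀ z ∈ S \ K, Γ.Adj y z →
      (∀ z ∈ S, Γ.Adj y z → Γ.Adj v z) → Γ.Adj w y := by
    intro y hy z hz hyz hdy
    obtain ⟨u, hu, hdu⟩ := hG.dom z hz.1 hz.2 (fun h => h)
    rcases hK2 u hu with h | h
    · exfalso
      rw [h] at hdu
      exact hirr v (hdu v hvS (hdy z hz.1 hyz).symm)
    · rw [h] at hdu
      exact hdu y hy.1 hyz.symm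
  obtain ⟨z₀, hz₀A, hyz₀⟩ := step hG.cD hA₀ hA₁ hy01.symm
  have hwy₀ : Γ.Adj w y₀ := hstar y₀ hA₀ z₀ hz₀A hyz₀ hdv
  by_cases hall : ∀ x ∈ S \ K, x = y₀ ∨ x = y₁
  · right
    have hz₀ : z₀ = y₁ := by
      rcases hall z₀ hz₀A with h | h
      · exact absurd (h ▸ hyz₀) (hirr y₀)
      · exact h
    refine ⟨v, w, y₀, y₁, ?_, ?_, ?_, hwv.symm, hwy₀, hz₀ ▸ hyz₀, hvy₁.symm, hvy₀, hwy₁⟩
    · ext x
      constructor
      · intro hx
        by_cases hxK : x ∈ K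
        · rcases hK2 x hxK with h | h
          · exact Or.inl h
          · exact Or.inr (Or.inl h)
        · rcases hall x ⟨hx, hxK⟩ with h | h
          · exact Or.inr (Or.inr (Or.inl h))
          · exact Or.inr (Or.inr (Or.inr h))
      · rintro (h | h | h | h)
        · rw [h]; exact hvS
        · rw [h]; exact hwS
        · rw [h]; exact hy₀S
        · have h' : x = y₁ := h
          rw [h']; exact hy₁S
    · intro h
      exact hy₀K (h ▸ hv)
    · intro h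
      exact hy₁K (h ▸ hw)
  · left
    push Not at hall
    obtain ⟨x₀, hx₀A, hx₀0, hx₀1⟩ := hall
    obtain ⟨x, hxA, hxT, hcn⟩ := hNCT Γ (S \ K) {y₀} hG.cD
      (fun t ht => by
        have h' : t = y₀ := ht
        rw [h']; exact hA₀)
      ⟨y₀, rfl⟩
      (fun h => by
        have h' : y₁ ∈ ({y₀} : Set V) := by rw [h]; exact hA₁
        exact hy01 h')
      (fun a ha b hb => by
        have h1 : a = y₀ := ha
        have h2 : b = y₀ := hb
        rw [h1, h2])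
    have hxy₀ : y₀ ≠ x := fun h => hxT h.symm
    have hy₀' : y₀ ∈ (S \ K) \ {x} := ⟨hA₀, hxy₀⟩
    have hex : ∃ y' ∈ (S \ K) \ {x}, y₀ ≠ y' := by
      by_cases h : x = y₁
      · refine ⟨x₀, ⟨hx₀A, ?_⟩, fun h' => hx₀0 h'.symm⟩
        intro h'
        have h'' : x₀ = x := h'
        exact hx₀1 (h''.trans h)
      · refine ⟨y₁, ⟨hA₁, ?_⟩, hy01.symm⟩
        intro h'
        have h'' : y₁ = x := h'
        exact h h''.symm
    obtain ⟨y', hy', hyy'⟩ := hex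
    obtain ⟨z, hzA, hyz⟩ := step hcn hy₀' hy' hyy'
    have hvz : Γ.Adj v z := hdv z hzA.1.1 hyz
    have hset : (S \ {x}) \ K = (S \ K) \ {x} := by
      ext z
      constructor
      · rintro ⟨⟨h1, h2⟩, h3⟩
        exact ⟨⟨h1, h3⟩, h2⟩
      · rintro ⟨⟨h1, h2⟩, h3⟩
        exact ⟨⟨h1, h3⟩, h2⟩
    refine ⟨x, hxA.1, K, ∅, ?_⟩
    constructor
    · intro a ha b hb c hc
      exact hG.free a ha.1 b hb.1 c hc.1
    · intro u hu
      refine ⟨hG.hK hu, ?_⟩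
      intro h
      have h' : u = x := h
      exact hxA.2 (h' ▸ hu)
    · intro t ht
      exact absurd ht (fun h => h)
    · exact hG.disj
    · exact hG.clique
    · exact ⟨y₀, ⟨hy₀S, hxy₀⟩, hy₀K⟩
    · intro t ht
      exact absurd ht (fun h => h)
    · intro y hy hyK hyT
      obtain ⟨u, hu, hz⟩ := hG.dom y hy.1 hyK hyT
      exact ⟨u, hu, fun z hzS => hz z hzS.1⟩
    · exact hG.cT
    · rw [hset]
      exact hcn
    · intro u hu
      rcases hK2 u hu with h | h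
      · rw [h]
        exact ⟨z, ⟨hzA.1.1, hzA.2⟩, hzA.1.2, hvz⟩
      · rw [h]
        exact ⟨y₀, ⟨hy₀S, hxy₀⟩, hy₀K, hwy₀⟩

end Pool.Agent.Lib.MPfe8d1b
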