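import Pool.Agent.Lib.MP_fe8d1b_al.Spec

set_option autoImplicit false

namespace Pool.Agent.Lib.MPfe8d1b

theorem specST3 : SpecST3 := by
  intro V Γ S K T h hne hST
  obtain ⟨v, hv⟩ := hne
  have hTv : ∀ x ∈ T, x ≠ v := fun x hx hxv => h.disj x hx (hxv ▸ hv)
  refine ⟨v, h.hK hv, K \ {v}, T, ?_⟩
  refine
    { free := fun x hx y hy z hz => h.free x hx.1 y hy.1 z hz.1
      hK := fun x hx => ⟨h.hK hx.1, hx.2⟩
      hT := fun x hx => ⟨h.hT hx, hTv x hx⟩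
      disj := fun x hx hxK => h.disj x hx hxK.1
      clique := fun a ha b hb hab => h.clique a ha.1 b hb.1 hab
      ne := ?_
      twin := ?_
      dom := ?_
      cT := h.cT
      cD := ?_
      nb := ?_ }
  · obtain ⟨x, hx, hxK⟩ := h.ne
    exact ⟨x, ⟨hx, fun hxv => hxK (by rw [Set.mem_singleton_iff] at hxv; rw [hxv]; exact hv)⟩,
      fun hxK' => hxK hxK'.1⟩
  · intro x hx
    obtain ⟨y, hy, hyx, hz⟩ := h.twin x hx
    exact ⟨y, hy, hyx, fun z hzS => hz z hzS.1⟩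
  · intro x hx hxK hxT
    exact absurd (hST x hx.1 (fun hK => hxK ⟨hK, hx.2⟩)) hxT
  · have he : (S \ {v}) \ (K \ {v}) = S \ K := by
      ext x
      constructor
      · rintro ⟨⟨h1, h2⟩, h3⟩
        exact ⟨h1, fun hK => h3 ⟨hK, h2⟩⟩
      · rintro ⟨h1, h2⟩
        refine ⟨⟨h1, fun hxv => h2 ?_⟩, fun hK => h2 hK.1⟩
        rw [Set.mem_singleton_iff] at hxv
        rw [hxv]; exact hv
    rw [he]
    exact h.cD
  · intro w hw
    obtain ⟨y, hy, hyK, hadj⟩ := h.nb w hw.1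
    refine ⟨y, ⟨hy, fun hyv => hyK ?_⟩, fun hK => hyK hK.1, hadj⟩
    rw [Set.mem_singleton_iff] at hyv
    rw [hyv]; exact hv

end Pool.Agent.Lib.MPfe8d1b
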