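import Pool.Agent.Lib.MP_fe8d1b_al.Spec

set_option autoImplicit false

namespace Pool.Agent.Lib.MPfe8d1b

theorem specST4 (hREP : SpecREP) : SpecST4 := by
  intro V Γ S T h hx
  obtain ⟨x, hxS, x', hx'S, x'', hx''S, hx', hx'', hxx, h1, h2⟩ := hx
  have hST : ∀ y ∈ S, y ∈ T := by
    intro y hy
    by_contra hyT
    obtain ⟨v, hv, _⟩ := h.dom y hy (fun h => h) hyT
    exact hv
  have hTS : T = S := Set.Subset.antisymm h.hT hST
  have hCnS : Cn Γ S := by
    have := h.cT
    rwa [hTS] at this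
  have hCn : Cn Γ (S \ {x}) := by
    intro a ha b hb
    refine hREP Γ S (S \ {x}) hCnS ?_ a ha.1 ha b hb.1 hb
    intro u hu huB
    have hux : u = x := by
      by_contra hne
      exact huB ⟨hu, hne⟩
    refine ⟨x', ⟨hx'S, hx'⟩, ?_⟩
    intro z hz hadj
    have hzS : z ∈ S := hz.elim (fun h => h) (fun h => h.1)
    rw [hux] at hadj
    exact (h1 z hzS).2 hadj
  refine ⟨x, hxS, ∅, S \ {x}, ?_⟩
  refine
    { free := fun a ha b hb c hc => h.free a ha.1 b hb.1 c hc.1
      hK := fun a ha => absurd ha (fun h => h)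
      hT := fun a ha => ha
      disj := fun a _ ha => ha
      clique := fun a ha => absurd ha (fun h => h)
      ne := ⟨x', ⟨hx'S, hx'⟩, fun h => h⟩
      twin := ?_
      dom := fun a ha _ haT => absurd ha haT
      cT := hCn
      cD := ?_
      nb := fun a ha => absurd ha (fun h => h) }
  · intro y hy
    obtain ⟨y', hy'T, hy'y, hz⟩ := h.twin y (hST y hy.1)
    by_cases hyx : y' = x
    · rw [hyx] at hz
      by_cases hyx' : y = x'
      · refine ⟨x'', ⟨hx''S, hx''⟩, by rw [hyx']; exact hxx, ?_⟩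
        intro z hzS
        exact (h2 z hzS.1).trans (hz z hzS.1)
      · refine ⟨x', ⟨hx'S, hx'⟩, fun h => hyx' h.symm, ?_⟩
        intro z hzS
        exact (h1 z hzS.1).trans (hz z hzS.1)
    · exact ⟨y', ⟨h.hT hy'T, hyx⟩, hy'y, fun z hzS => hz z hzS.1⟩
  · rw [Set.sdiff_empty]
    exact hCn

end Pool.Agent.Lib.MPfe8d1b
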