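import Pool.Agent.Lib.MP_fe8d1b_al.Spec

/-!
# ST5: all classes of twins have two elements
-/

set_option autoImplicit false

namespace Pool.Agent.Lib.MPfe8d1b

namespace ST5M

/-- a path which leaves `B` has a step which leaves `B` -/
lemma cross {α : Type} {r : α → α → Prop} {B : Set α} {x y : α}
    (h : Relation.ReflTransGen r x y) (hx : x ∈ B) (hy : y ∉ B) :
    ∃ a ∈ B, ∃ b, b ∉ B ∧ r a b := by
  induction h with
  | refl => exact absurd hx hy
  | @tail b c _ hbc ih =>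
    by_cases hb : b ∈ B
    · exact ⟨b, hb, c, hy, hbc⟩
    · exact ih hb

/-- `B` is closed under twins -/
def Cl {V : Type} (Γ : SimpleGraph V) (S B : Set V) : Prop :=
  ∀ b ∈ B, ∀ c ∈ S, (∀ z ∈ S, Γ.Adj c z ↔ Γ.Adj b z) → c ∈ B

/-- the family of the sets `B` -/
def Fam {V : Type} (Γ : SimpleGraph V) (S : Set V) : Set (Set V) :=
  {B | B ⊆ S ∧ B ≠ S ∧ B.Nonempty ∧ Cn Γ B ∧ Cl Γ S B}

end ST5M

open ST5M in
theorem specST5 : SpecST5 := by
  intro V _ Γ S T G hno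
  have hTS : T = S := by
    apply Set.Subset.antisymm G.hT
    intro x hx
    by_contra hxT
    obtain ⟨v, hv, -⟩ := G.dom x hx (by simp) hxT
    simp at hv
  subst hTS
  -- at most two twins
  have huni : ∀ x ∈ T, ∀ y ∈ T, ∀ w ∈ T, y ≠ x → (∀ z ∈ T, Γ.Adj y z ↔ Γ.Adj x z) →
      (∀ z ∈ T, Γ.Adj w z ↔ Γ.Adj x z) → w = x ∨ w = y := by
    intro x hx y hy w hw hyx h1 h2
    by_contra hcon
    push Not at hcon
    exact hno ⟨x, hx, y, hy, w, hw, hyx, hcon.1, hcon.2, h1, h2⟩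
  -- a pair of twins is closed
  have hpair : ∀ x ∈ T, ∀ y ∈ T, y ≠ x → (∀ z ∈ T, Γ.Adj y z ↔ Γ.Adj x z) →
      ∀ c, c = x ∨ c = y → ∀ c' ∈ T, (∀ z ∈ T, Γ.Adj c' z ↔ Γ.Adj c z) → c' = x ∨ c' = y := by
    intro x hx y hy hyx h1 c hc c' hc' h2
    apply huni x hx y hy c' hc' hyx h1
    rcases hc with rfl | rfl
    · exact h2
    · exact fun z hz => (h2 z hz).trans (h1 z hz)
  obtain ⟨x₀, hx₀, -⟩ := G.ne
  obtain ⟨x₁, hx₁, hx10, hxt⟩ := G.twin x₀ hx₀
  obtain ⟨y₀, hxy, hy₀⟩ : ∃ y₀, Γ.Adj x₀ y₀ ∧ y₀ ∈ T := by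
    rcases Relation.ReflTransGen.cases_head (G.cT x₀ hx₀ x₁ hx₁) with h | ⟨c, h, -⟩
    · exact absurd h.symm hx10
    · exact ⟨c, h⟩
  obtain ⟨y₁, hy₁, hy10, hyt⟩ := G.twin y₀ hy₀
  have a10 : Γ.Adj x₁ y₀ := (hxt y₀ hy₀).2 hxy
  have a01 : Γ.Adj x₀ y₁ := ((hyt x₀ hx₀).2 hxy.symm).symm
  have a11 : Γ.Adj x₁ y₁ := ((hyt x₁ hx₁).2 a10.symm).symm
  have nx : ¬ Γ.Adj x₀ x₁ := fun h => Γ.loopless.irrefl _ ((hxt x₁ hx₁).2 h)
  have ny : ¬ Γ.Adj y₀ y₁ := fun h => Γ.loopless.irrefl _ ((hyt y₁ hy₁).2 h)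
  by_cases hB : T = {x₀, y₀, x₁, y₁}
  · right
    exact ⟨x₀, y₀, x₁, y₁, hB, hx10.symm, hy10.symm, hxy, a10.symm, a11, a01.symm, nx, ny⟩
  left
  -- a maximal set
  have hF : ({x₀, y₀, x₁, y₁} : Set V) ∈ Fam Γ T := by
    refine ⟨?_, fun h => hB h.symm, ⟨x₀, by simp⟩, ?_, ?_⟩
    · rintro z (rfl | rfl | rfl | rfl) <;> assumption
    · have s1 : ∀ a b : V, Γ.Adj a b → b ∈ ({x₀, y₀, x₁, y₁} : Set V) →
          Relation.ReflTransGen (fun a b => Γ.Adj a b ∧ b ∈ ({x₀, y₀, x₁, y₁} : Set V)) a b :=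
        fun a b h1 h2 => Relation.ReflTransGen.single ⟨h1, h2⟩
      have to0 : ∀ a ∈ ({x₀, y₀, x₁, y₁} : Set V),
          Relation.ReflTransGen (fun a b => Γ.Adj a b ∧ b ∈ ({x₀, y₀, x₁, y₁} : Set V)) a x₀ := by
        rintro a (rfl | rfl | rfl | rfl)
        · exact Relation.ReflTransGen.refl
        · exact s1 _ _ hxy.symm (by simp)
        · exact (s1 _ _ a10 (by simp)).trans (s1 _ _ hxy.symm (by simp))
        · exact s1 _ _ a01.symm (by simp)
      have of0 : ∀ a ∈ ({x₀, y₀, x₁, y₁} : Set V),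
          Relation.ReflTransGen (fun a b => Γ.Adj a b ∧ b ∈ ({x₀, y₀, x₁, y₁} : Set V)) x₀ a := by
        rintro a (rfl | rfl | rfl | rfl)
        · exact Relation.ReflTransGen.refl
        · exact s1 _ _ hxy (by simp)
        · exact (s1 _ _ hxy (by simp)).trans (s1 _ _ a10.symm (by simp))
        · exact s1 _ _ a01 (by simp)
      exact fun a ha b hb => (to0 a ha).trans (of0 b hb)
    · intro b hb c hc h
      have hb' : (b = x₀ ∨ b = x₁) ∨ (b = y₀ ∨ b = y₁) := by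
        rcases hb with rfl | rfl | rfl | rfl
        · exact Or.inl (Or.inl rfl)
        · exact Or.inr (Or.inl rfl)
        · exact Or.inl (Or.inr rfl)
        · exact Or.inr (Or.inr rfl)
      rcases hb' with hb' | hb'
      · rcases hpair x₀ hx₀ x₁ hx₁ hx10 hxt b hb' c hc h with h' | h' <;> rw [h'] <;> simp
      · rcases hpair y₀ hy₀ y₁ hy₁ hy10 hyt b hb' c hc h with h' | h' <;> rw [h'] <;> simp
  obtain ⟨B, hBF, hBmax⟩ := (Set.toFinite (Fam Γ T)).exists_maximal ⟨_, hF⟩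
  obtain ⟨hBT, hBne, ⟨b₀, hb₀⟩, hBc, hBcl⟩ := hBF
  obtain ⟨s₀, hs₀, hs₀B⟩ : ∃ s ∈ T, s ∉ B := by
    by_contra hcon
    push Not at hcon
    exact hBne (Set.Subset.antisymm hBT hcon)
  obtain ⟨b, hb, z, hzB, hbz, hzT⟩ := cross (G.cT b₀ (hBT hb₀) s₀ hs₀) hb₀ hs₀B
  obtain ⟨z', hz'T, hz'z, hzt⟩ := G.twin z hzT
  have hz'B : z' ∉ B := fun h => hzB (hBcl z' h z hzT fun w hw => (hzt w hw).symm)
  have hbz' : Γ.Adj b z' := ((hzt b (hBT hb)).2 hbz.symm).symm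
  have hST : T = B ∪ {z, z'} := by
    by_contra hne
    have hsub : B ⊆ B ∪ {z, z'} := Set.subset_union_left
    have hmem : B ∪ {z, z'} ∈ Fam Γ T := by
      refine ⟨?_, fun h => hne h.symm, ⟨b₀, hsub hb₀⟩, ?_, ?_⟩
      · rintro w (hw | rfl | rfl)
        · exact hBT hw
        · exact hzT
        · exact hz'T
      · have hlift : ∀ u w, Relation.ReflTransGen (fun a b => Γ.Adj a b ∧ b ∈ B) u w →
            Relation.ReflTransGen (fun a b => Γ.Adj a b ∧ b ∈ B ∪ {z, z'}) u w :=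
          fun u w h => Relation.ReflTransGen.mono (fun a b h => ⟨h.1, hsub h.2⟩) u w h
        have tob : ∀ u ∈ B ∪ {z, z'},
            Relation.ReflTransGen (fun a b => Γ.Adj a b ∧ b ∈ B ∪ {z, z'}) u b := by
          rintro u (hu | rfl | rfl)
          · exact hlift _ _ (hBc u hu b hb)
          · exact Relation.ReflTransGen.single ⟨hbz.symm, hsub hb⟩
          · exact Relation.ReflTransGen.single ⟨hbz'.symm, hsub hb⟩
        have ofb : ∀ u ∈ B ∪ {z, z'},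
            Relation.ReflTransGen (fun a b => Γ.Adj a b ∧ b ∈ B ∪ {z, z'}) b u := by
          rintro u (hu | rfl | rfl)
          · exact hlift _ _ (hBc b hb u hu)
          · exact Relation.ReflTransGen.single ⟨hbz, Or.inr (Or.inl rfl)⟩
          · exact Relation.ReflTransGen.single ⟨hbz', Or.inr (Or.inr rfl)⟩
        exact fun u hu w hw => (tob u hu).trans (ofb w hw)
      · rintro c (hc | hc) c' hc' h
        · exact Or.inl (hBcl c hc c' hc' h)
        · rcases hpair z hzT z' hz'T hz'z hzt c hc c' hc' h with h' | h'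
          · exact Or.inr (Or.inl h')
          · exact Or.inr (Or.inr h')
    exact hzB (hBmax hmem hsub (Or.inr (Or.inl rfl)))
  have hdiff : (T \ {z}) \ {z'} = B := by
    apply Set.Subset.antisymm
    · rintro w ⟨⟨hw, hwz⟩, hwz'⟩
      rw [hST] at hw
      rcases hw with hw | hw | hw
      · exact hw
      · exact absurd hw hwz
      · exact absurd hw hwz'
    · intro w hw
      refine ⟨⟨hBT hw, ?_⟩, ?_⟩
      · rintro rfl
        exact hzB hw
      · rintro rfl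
        exact hz'B hw
  have hbz1 : b ≠ z := by
    rintro rfl
    exact hzB hb
  have hbz2 : b ≠ z' := by
    rintro rfl
    exact hz'B hb
  refine ⟨z, hzT, {z'}, B, ?_⟩
  refine ⟨?_, ?_, ?_, ?_, ?_, ?_, ?_, ?_, hBc, ?_, ?_⟩
  · intro x hx y hy w hw
    exact G.free x hx.1 y hy.1 w hw.1
  · rintro w rfl
    exact ⟨hz'T, hz'z⟩
  · intro w hw
    refine ⟨hBT hw, ?_⟩
    rintro rfl
    exact hzB hw
  · rintro x hx rfl
    exact hz'B hx
  · rintro v rfl w rfl hvw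
    exact absurd rfl hvw
  · exact ⟨b, ⟨hBT hb, hbz1⟩, hbz2⟩
  · intro x hx
    obtain ⟨y, hy, hyx, h⟩ := G.twin x (hBT hx)
    exact ⟨y, hBcl x hx y hy h, hyx, fun w hw => h w hw.1⟩
  · intro x hx hxz' hxB
    exfalso
    apply hxB
    rw [← hdiff]
    exact ⟨hx, hxz'⟩
  · rw [hdiff]
    exact hBc
  · rintro v rfl
    exact ⟨b, ⟨hBT hb, hbz1⟩, hbz2, hbz'.symm⟩

end Pool.Agent.Lib.MPfe8d1b
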