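import Pool.Agent.Lib.MP_fe8d1b_al.Defs
import Pool.Agent.Lib.MP_c91b70_al.QITransport

/-!
# Chains of cone-offs for graphs with twins and dominated vertices (MP_fe8d1b_al)

THEOREM (FIN). Let `Γ` be finite, triangle-free, incomplete, without separating cliques, and let `K`
be a clique such that every vertex `x ∉ K` has a twin outside `K` or is dominated by a vertex of
`K`, and the vertices outside `K` not dominated by `K` induce a preconnected graph. Then `Γ` is the
end of a chain of cone-offs from a square inside the property `P` of the problem.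

Part 1 (groups): such a graph is RAAGedy. Doubling along a vertex of `K` (`DBL`) reduces `K`; if
`K = ∅` every vertex has a twin and the Coxeter group is a graph product of groups `(Z/2) * .. * (Z/2)`
with at least two factors, which are bilipschitz to free groups (`PH1`, `PH2`), so it is bilipschitz to
a right-angled Artin group (`BLO`).

Part 2 (graphs): relative to a set `S` of vertices, `Good Γ S K T`; every good configuration is a
square or has a smaller good configuration `S \ {x}`.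
-/

set_option autoImplicit false

namespace Pool.Agent.Lib.MPfe8d1b

open Pool.Agent.Lib.MP_c91b70_al (GraphProd)

/-! ## Word length -/

/-- `x` is a product of at most `N` elements of `S` and inverses of elements of `S`. -/
def Len {G : Type} [Group G] (S : Set G) (x : G) (N : ℕ) : Prop :=
  ∃ l : List G, (∀ s ∈ l, s ∈ S ∨ s⁻¹ ∈ S) ∧ l.prod = x ∧ l.length ≤ N

theorem Len.one {G : Type} [Group G] (S : Set G) (N : ℕ) : Len S 1 N :=
  ⟨[], by simp, by simp, by simp⟩

theorem Len.mono {G : Type} [Group G] {S : Set G} {x : G} {N M : ℕ} (h : Len S x N)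
    (hNM : N ≤ M) : Len S x M := by
  obtain ⟨l, h1, h2, h3⟩ := h
  exact ⟨l, h1, h2, h3.trans hNM⟩

theorem Len.mul {G : Type} [Group G] {S : Set G} {x y : G} {N M : ℕ} (hx : Len S x N)
    (hy : Len S y M) : Len S (x * y) (N + M) := by
  obtain ⟨l, h1, h2, h3⟩ := hx
  obtain ⟨l', h1', h2', h3'⟩ := hy
  refine ⟨l ++ l', ?_, by rw [List.prod_append, h2, h2'], by rw [List.length_append]; omega⟩
  intro s hs
  rcases List.mem_append.1 hs with h | h
  · exact h1 s h
  · exact h1' s h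

theorem Len.inv {G : Type} [Group G] {S : Set G} {x : G} {N : ℕ} (hx : Len S x N) :
    Len S x⁻¹ N := by
  obtain ⟨l, h1, h2, h3⟩ := hx
  refine ⟨(l.map (·⁻¹)).reverse, ?_, by rw [← h2, List.prod_inv_reverse],
    by rw [List.length_reverse, List.length_map]; exact h3⟩
  intro s hs
  rw [List.mem_reverse, List.mem_map] at hs
  obtain ⟨t, ht, rfl⟩ := hs
  rw [inv_inv]
  exact (h1 t ht).symm

theorem Len.of_mem {G : Type} [Group G] {S : Set G} {x : G} (hx : x ∈ S) : Len S x 1 :=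
  ⟨[x], by simpa using Or.inl hx, by simp, by simp⟩

/-- A homomorphism which maps generators to generators does not increase the length. -/
theorem Len.map {G H : Type} [Group G] [Group H] {S : Set G} {T : Set H} (f : G →* H)
    (hf : ∀ s ∈ S, f s ∈ T) {x : G} {N : ℕ} (hx : Len S x N) : Len T (f x) N := by
  obtain ⟨l, h1, h2, h3⟩ := hx
  refine ⟨l.map f, ?_, by rw [← h2, map_list_prod], by rw [List.length_map]; exact h3⟩
  intro s hs
  rw [List.mem_map] at hs
  obtain ⟨t, ht, rfl⟩ := hs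
  rcases h1 t ht with h | h
  · exact Or.inl (hf t h)
  · right
    rw [← map_inv]
    exact hf _ h

/-- Quasi-isometry in terms of `Len`. -/
def QI {G H : Type} [Group G] [Group H] (S : Set G) (T : Set H) : Prop :=
  ∃ (f : G → H) (K C : ℕ),
    (∀ x y N, Len S (x⁻¹ * y) N → Len T ((f x)⁻¹ * f y) (K * N + C)) ∧
    (∀ x y N, Len T ((f x)⁻¹ * f y) N → Len S (x⁻¹ * y) (K * N + C)) ∧
    ∀ z, ∃ x, Len T ((f x)⁻¹ * z) C

/-- LEN (facts on lengths).

PROOF. `trans`: compose the maps; constants `K K'` and `K' C + C' + ..`; for the third part: `z`,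
choose `y` with `(g y)⁻¹ z` short, `x` with `(f x)⁻¹ y` short, then
`(g (f x))⁻¹ z = ((g (f x))⁻¹ g y) ((g y)⁻¹ z)`. All constants may be enlarged by `Len.mono`. `wd`:
`wordDist S x y` is the least `N` with a list of length exactly `N`; if `Len S (x⁻¹ y) N` for some `N` (the
hypothesis) then `Len S (x⁻¹ y) (wordDist S x y)` (`Nat.sInf_mem`), and `Len S (x⁻¹ y) N` implies
`wordDist S x y ≤ N` (`Nat.sInf_le`). `lip`: induction over the list: for `s ∈ S` hypothesis; for
`s⁻¹ ∈ S`: `(f g)⁻¹ f (g s) = ((f (g s))⁻¹ f (g s s⁻¹))⁻¹`. `gen`: `PresentedGroup.mk` is surjective; word of a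
free group element. `genF`: the same for the free group. -/
structure SpecLEN : Prop where
  trans : ∀ {G H L : Type} [Group G] [Group H] [Group L] (S : Set G) (T : Set H) (R : Set L),
    QI S T → QI T R → QI S R
  wd : ∀ {G H : Type} [Group G] [Group H] (S : Set G) (T : Set H), (∀ x, ∃ N, Len S x N) →
    (∀ x, ∃ N, Len T x N) → QI S T → QuasiIsometric S T
  lip : ∀ {G H : Type} [Group G] [Group H] (S : Set G) (T : Set H) (f : G → H) (L : ℕ),
    (∀ s ∈ S, ∀ g, Len T ((f g)⁻¹ * f (g * s)) L) →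
    ∀ z N, Len S z N → ∀ g, Len T ((f g)⁻¹ * f (g * z)) (L * N)
  gen : ∀ {V : Type} (R : Set (FreeGroup V)) (x : PresentedGroup R), ∃ N, Len (gens R) x N
  genF : ∀ {V : Type} (x : FreeGroup V), ∃ N, Len (Set.range FreeGroup.of) x N

/-! ## Graph products -/

/-- The free product of groups of order two, one for every element of `X`. -/
abbrev FV (X : Type) : Type :=
  PresentedGroup {r : FreeGroup X | ∃ a, r = FreeGroup.of a * FreeGroup.of a}

/-- GPW: the Coxeter group of a graph pulled back along `c : V → Q` is the graph product over `Q` of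
the groups `FV (fibre)`.

PROOF. See `QIInst.gpW` in `Pool/Agent/Lib/MP_c91b70_al/QIInst.lean` (there the pentagon, fibres
`Fin 3`): `of q = PresentedGroup.toGroup` with `x ↦ of x.1`; `comm` from the commutation of generators
(`QIInst.commute_of_gen` there is general); `gen`: every generator `of x` is in the range of
`of (c x)`; `lift f` = `toGroup` with `x ↦ f (c x) (of ⟨x, rfl⟩)`; `lift_of`: `PresentedGroup.ext`, the
fibre element `⟨x, hx⟩`, `subst hx`. -/
def SpecGPW : Prop :=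
  ∀ {V Q : Type} (Γ : SimpleGraph V) (Θ : SimpleGraph Q) (c : V → Q),
    (∀ x y, Γ.Adj x y ↔ Θ.Adj (c x) (c y)) →
    ∃ D : GraphProd Θ (fun q => FV {x : V // c x = q}) (RACG Γ),
      ∀ (q : Q) (x : {x : V // c x = q}), D.of q (PresentedGroup.of x) = PresentedGroup.of x.1

/-- The graph on `Σ q, T q` pulled back from `Θ`. -/
def sigGraph {Q : Type} (Θ : SimpleGraph Q) (T : Q → Type) : SimpleGraph (Σ q, T q) :=
  Θ.comap Sigma.fst

/-- GPA: the Artin group of `sigGraph Θ T` is the graph product over `Θ` of the free groups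
`FreeGroup (T q)`.

PROOF. See `QIInst.gpA` in `Pool/Agent/Lib/MP_c91b70_al/QIInst.lean`: `of q = FreeGroup.lift` with
`t ↦ of ⟨q, t⟩`, etc. (`QIInst.commute_of_gen_free`). -/
def SpecGPA : Prop :=
  ∀ {Q : Type} (Θ : SimpleGraph Q) (T : Q → Type),
    ∃ D : GraphProd Θ (fun q => FreeGroup (T q)) (RAAG (sigGraph Θ T)),
      ∀ (q : Q) (t : T q), D.of q (FreeGroup.of t) = PresentedGroup.of ⟨q, t⟩

/-- a bijection between the free product of `Z/2`s over `X` and a free group which is bilipschitz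
(constant 8) for the right invariant metrics -/
def Phi (X : Type) : Prop :=
  ∃ (T : Type) (_ : Finite T) (φ : FV X ≃ FreeGroup T),
    (∀ (x : X) (k : FV X),
      Len (Set.range FreeGroup.of) (φ (PresentedGroup.of x * k) * (φ k)⁻¹) 8) ∧
    ∀ (t : T) (k : FreeGroup T),
      Len (gens _) (φ.symm (FreeGroup.of t * k) * (φ.symm k)⁻¹) 8

/-- PH1: two elements, the infinite dihedral group and `Z`.

PROOF. `T = Unit`, `X = {s, s'}`. `FreeGroup Unit` is infinite cyclic, generator `x`. `D = FV X` acts on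
`ℤ` by `s : m ↦ (if m even then m + 1 else m - 1)` and `s' : m ↦ (if m even then m - 1 else m + 1)`
(both are involutions); the orbit map `T k = k • 0` is a bijection `D → ℤ`: the inverse is `P (2 m) =
(s' s)^(-m) ..`: define `P : ℤ → D` by `P (2 j) = (s s')^j`, `P (2 j + 1) = s (s s')^j ..` so that
`P (t • m) = t * P m` for both generators `t` (check `s (s s')^j`: position `2 j ↦ 2 j + 1`;
`s' (s s')^j = (s s')^(-1) s (s s')^j ..`: adapt `QIPhi.lean` of MP_c91b70_al, which does the same with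
`Fin 3`: there `B = Bool × F` and `T`, `S` with `T_S`, `S_T`; here `F = FreeGroup Unit`, then compose with
the bijection `Bool × FreeGroup Unit → FreeGroup Unit`, `(false, x^m) ↦ x^(2m+1)`, `(true, x^m) ↦
x^(2m)`; generator `0` exchanges `(false, m), (true, m)`; generator `1` exchanges `(false, m)` and
`(true, m + 1)`: both change the exponent by 1.) Conversely multiplication of `φ(k)` by `x^(±1)`
changes `k` by left multiplication with one of the two generators. -/
def SpecPH1 : Prop := ∀ X : Type, Nat.card X = 2 → Phi X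

/-- PH2: at least three elements.

PROOF. `Pool/Agent/Lib/MP_c91b70_al/QIPhi.lean` is the case `X = Fin 3`, `T = Fin 2`. The same proof
with `X = Fin (k + 1)`, `T = Fin k`, `k ≥ 2` (letters `0` and `1` of `Fin k` in `letter`; nothing else
uses `k = 2`); constants 3 and 8. The general `X` by an equivalence `X ≃ Fin (k + 1)`
(`Finite.equivFin`; `PresentedGroup` along an equivalence of generators; or do the whole proof for `X`
with a base point `x₀`, `T = {x // x ≠ x₀}` and two distinct letters). -/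
def SpecPH2 : Prop := ∀ X : Type, Finite X → 3 ≤ Nat.card X → Phi X

/-- BLO: if every vertex has a twin, the Coxeter group is quasi-isometric to an Artin group (from LEN,
GPW, GPA, PH1, PH2).

PROOF. `Q` = quotient of `V` by `N(x) = N(y)`, `Θ` the quotient graph, `c` the projection; every fibre
is finite and has at least 2 elements: `Phi`; choose `T q`, `φ q`. `QITransport.transport D D' φ`
(`Pool/Agent/Lib/MP_c91b70_al/QITransport.lean`) gives a bijection `F`. `f x = (F x⁻¹)⁻¹`: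
`(f g)⁻¹ f (g s) = (F (s⁻¹ g⁻¹) (F g⁻¹)⁻¹)⁻¹`, `s = s⁻¹` a generator, by `transport` this is the inverse
of `D'.of v (φ (s k) (φ k)⁻¹)`, of length `≤ 8` (`Len.map`, `D'.of v` maps generators to generators).
LEN.lip. The converse in the same way with `F.symm` (`f` is a bijection with inverse
`y ↦ (F.symm y⁻¹)⁻¹`; from `Len T ((f x)⁻¹ f y) N` get `Len S (x⁻¹ y) (8 N)` by `lip` for the inverse; for a
generator `s = of ⟨q, t⟩` of the Artin group the element `s⁻¹ y` occurs: use
`F.symm (s⁻¹ y) (F.symm y)⁻¹ = (F.symm (s z) (F.symm z)⁻¹)⁻¹`, `z = s⁻¹ y`). Surjective, `C = 0`. -/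
def SpecBLO : Prop :=
  ∀ {V : Type} [Finite V] (Γ : SimpleGraph V), (∀ x, ∃ y, y ≠ x ∧ ∀ z, Γ.Adj y z ↔ Γ.Adj x z) →
    ∃ (U : Type) (_ : Finite U) (Δ : SimpleGraph U),
      QI (gens (racgRelators Γ)) (gens (raagRelators Δ))

/-! ## Doubling -/

/-- the vertices of the double: two copies of every vertex `x ≠ v` not adjacent to `v`, one copy of the
neighbours of `v` -/
def DV {V : Type} (Γ : SimpleGraph V) (v : V) : Type :=
  {p : V × Bool // p.1 ≠ v ∧ (Γ.Adj p.1 v → p.2 = false)}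

/-- the double of `Γ - v` along the link of `v` -/
def dbl {V : Type} (Γ : SimpleGraph V) (v : V) : SimpleGraph (DV Γ v) where
  Adj p q := Γ.Adj p.1.1 q.1.1 ∧ (p.1.2 = q.1.2 ∨ Γ.Adj p.1.1 v ∨ Γ.Adj q.1.1 v)
  symm := ⟨fun _ _ h => ⟨h.1.symm, h.2.elim (fun h => Or.inl h.symm) fun h => Or.inr h.symm⟩⟩
  loopless := ⟨fun _ h => Γ.loopless.irrefl _ h.1⟩

/-- DBL: `RACG Γ` is quasi-isometric to the Coxeter group of the double (a subgroup of index 2).

PROOF. `N = RACG (dbl Γ v)`, `σ : N ≃* N` the automorphism which exchanges the copies, `(x, b) ↦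
(x, !b)` for `x` not adjacent to `v`, `(x, false)` fixed for `x` adjacent to `v`; `σ σ = 1`. `RACG Γ` acts on
`N × Bool`: `x ≠ v` acts by `(n, e) ↦ (of (x, false) * n, e)`, `v` by `(n, e) ↦ (σ n, !e)` (relations:
squares; `x, y` adjacent: `(x, false)`, `(y, false)` are adjacent; `x` adjacent to `v`: `σ` fixes `of (x, false)`):
`Θ : RACG Γ →* Equiv.Perm (N × Bool)`. `j : N →* RACG Γ`: `(x, false) ↦ x`, `(x, true) ↦ v x v` (relations: if
`b ≠ b'` then `x` or `y` commutes with `v`, so `x` and `v y v` commute). `j (σ n) = v j(n) v`. `G (n, e) = j n` or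
`j n * v`, `F g = Θ g (1, false)`. `Θ (j n) (m, e) = (n m, e)`, so `F (G p) = p`; `G (Θ s p) = s G(p)` for
generators, so `G (F g) = g`. `f g = (F g).1`. If `g = G (n, e)` then `g x = G (n * of (x, b), e)` with
`b = e` or `x` adjacent to `v` (as `G` is injective), and `g v = G (n, !e)`: so `(f g)⁻¹ f (g s)` has length
`≤ 1`: LEN.lip. Conversely `g = G (n, e)`, `h = G (m, d)`: `g⁻¹ h = v^e j(n⁻¹ m) v^d`, of length
`≤ 3 |n⁻¹ m| + 2`. `f` is surjective. -/
def SpecDBL : Prop :=
  ∀ {V : Type} (Γ : SimpleGraph V) (v : V),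
    QI (gens (racgRelators Γ)) (gens (racgRelators (dbl Γ v)))

/-- COV: Part 1 (from LEN, BLO, DBL).

PROOF. Induction over `K.ncard` for all `V`, `Γ` at once. `K = ∅`: `Dominated` is impossible, BLO. Otherwise
`v ∈ K`; apply the induction hypothesis to `dbl Γ v` and `K' = {p | p.1.1 ∈ K}` (all `w ∈ K`, `w ≠ v`, are
adjacent to `v`, so they have one copy `(w, false)`; `K'` is a clique with one element less). Let `(x, a) ∉
K'`, so `x ∉ K`. (1) `x` has a twin `y ∉ K`: `(y, a)` is a vertex (`y ≠ v`; `y` is adjacent to `v` iff `x` is) and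
a twin of `(x, a)`, not in `K'`. (2) `x` dominated by `v`: `x` is not adjacent to `v` (else `v` is adjacent
to `v`); `(x, !a)` is a twin of `(x, a)`: all neighbours `y` of `x` are adjacent to `v`. (3) `x` dominated
by `w ∈ K`, `w ≠ v`: `(x, a)` is dominated by `(w, false)`, because `w` is adjacent to `v`. Then DBL and
LEN.trans. -/
def SpecCOV : Prop :=
  ∀ {V : Type} [Finite V] (Γ : SimpleGraph V) (K : Set V), Γ.IsClique K →
    (∀ x, x ∉ K → HasTwin Γ K x ∨ Dominated Γ K x) →
    ∃ (U : Type) (_ : Finite U) (Δ : SimpleGraph U),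
      QI (gens (racgRelators Γ)) (gens (raagRelators Δ))

/-! ## Graphs -/

/-- any two points of `A` are joined by a path in `A` -/
def Cn {V : Type} (Γ : SimpleGraph V) (A : Set V) : Prop :=
  ∀ x ∈ A, ∀ y ∈ A, Relation.ReflTransGen (fun a b => Γ.Adj a b ∧ b ∈ A) x y

/-- a good configuration in the vertex set `S` -/
structure Good {V : Type} (Γ : SimpleGraph V) (S K T : Set V) : Prop where
  free : ∀ x ∈ S, ∀ y ∈ S, ∀ z ∈ S, Γ.Adj x y → Γ.Adj y z → Γ.Adj x z → False
  hK : K ⊆ S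
  hT : T ⊆ S
  disj : ∀ x ∈ T, x ∉ K
  clique : ∀ v ∈ K, ∀ w ∈ K, v ≠ w → Γ.Adj v w
  ne : ∃ x ∈ S, x ∉ K
  twin : ∀ x ∈ T, ∃ y ∈ T, y ≠ x ∧ ∀ z ∈ S, Γ.Adj y z ↔ Γ.Adj x z
  dom : ∀ x ∈ S, x ∉ K → x ∉ T → ∃ v ∈ K, ∀ z ∈ S, Γ.Adj x z → Γ.Adj v z
  cT : Cn Γ T
  cD : Cn Γ (S \ K)
  nb : ∀ v ∈ K, ∃ y ∈ S, y ∉ K ∧ Γ.Adj v y

/-- there is a smaller good configuration -/
def Next {V : Type} (Γ : SimpleGraph V) (S : Set V) : Prop :=
  ∃ x ∈ S, ∃ K T : Set V, Good Γ (S \ {x}) K T

/-- `S` is a square -/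
def Sq {V : Type} (Γ : SimpleGraph V) (S : Set V) : Prop :=
  ∃ a b c d : V, S = {a, b, c, d} ∧ a ≠ c ∧ b ≠ d ∧ Γ.Adj a b ∧ Γ.Adj b c ∧ Γ.Adj c d ∧
    Γ.Adj d a ∧ ¬ Γ.Adj a c ∧ ¬ Γ.Adj b d

/-- REP: replacement of vertices on a path.

PROOF. Induction along the path in `A` from `x` (`ReflTransGen.rec`/`head`): claim: for every point `u`
on it there is `r ∈ B`, reachable from `x` in `B`, such that `r = u` or (`u ∉ B` and all neighbours of `u` in
`A ∪ B` are neighbours of `r`). Step `u ~ u'` (`u' ∈ A`): `r ~ u'`. If `u' ∈ B` go to `u'`. Otherwise `u'` has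
a replacement `r'`; `r ∈ B` is a neighbour of `u'`, so `r ~ r'`. At the end `y ∈ B`, so `r = y`. -/
def SpecREP : Prop :=
  ∀ {V : Type} (Γ : SimpleGraph V) (A B : Set V), Cn Γ A →
    (∀ x ∈ A, x ∉ B → ∃ r ∈ B, ∀ z ∈ A ∪ B, Γ.Adj x z → Γ.Adj r z) →
    ∀ x ∈ A, x ∈ B → ∀ y ∈ A, y ∈ B →
      Relation.ReflTransGen (fun a b => Γ.Adj a b ∧ b ∈ B) x y

/-- NSC: no clique separates a good configuration (from REP).

PROOF. Case A: `C ∩ K = ∅`. `Cn Γ S`: from `cD` and `nb` (`K` outside has neighbours in `S \ K`). REP with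
`A = S`, `B = S \ C`: let `x ∈ C`, so `x ∉ K`. If `x ∈ T`: `r` = twin; `r ∉ C`, since otherwise `r ~ x`
(clique) and then `x ~ x` by the twin property. Otherwise `r ∈ K` dominates `x`, `r ∉ C`.
Case B: `v ∈ C ∩ K`. (B1) `x, y ∈ S \ K`, not in `C`: REP with `A = S \ K`, `B = S \ C`: let `u ∈ C \ K`, so
`u ~ v`. If `u ∈ T`: twin as before. Otherwise `w ∈ K` dominates `u`; `w ∉ C`, since otherwise `w ~ u`
(`w ≠ u` as `u ∉ K`) and `w ~ w`. (B2) `w ∈ K \ C` has a neighbour `y ∈ S \ K` by `nb`, and `y ∉ C`, since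
otherwise `v, w, y` is a triangle. So everything is joined to a point of `(S \ K) \ C`. -/
def SpecNSC : Prop :=
  ∀ {V : Type} (Γ : SimpleGraph V) (S K T : Set V), Good Γ S K T → ∀ C : Set V, C ⊆ S →
    (∀ x ∈ C, ∀ y ∈ C, x ≠ y → Γ.Adj x y) → Cn Γ (S \ C)

/-- NCT: a connected set can be made smaller outside a connected subset.

PROOF. `V` is finite: take a maximal set `B` with `T ⊆ B ⊆ A`, `B ≠ A`, `Cn Γ B`. By `Cn Γ A` there are
`b ∈ B`, `x ∈ A \ B` adjacent (first step out of `B` of a path). `B ∪ {x}` is connected, so by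
maximality `B ∪ {x} = A`, `A \ {x} = B`. -/
def SpecNCT : Prop :=
  ∀ {V : Type} [Finite V] (Γ : SimpleGraph V) (A T : Set V), Cn Γ A → T ⊆ A → T.Nonempty →
    T ≠ A → Cn Γ T → ∃ x ∈ A, x ∉ T ∧ Cn Γ (A \ {x})

/-- ST1 (from NCT).

PROOF. NCT with `A = S \ K`: `x ∈ S \ K`, `x ∉ T`, `Cn Γ ((S \ K) \ {x})`.
(a) Every `v ∈ K` has a neighbour in `(S \ K) \ {x}`: `Good Γ (S \ {x}) K T`.
(b) Otherwise there is `v ∈ K` whose only neighbour in `S \ K` is `x` (it has one by `nb`, so `v ~ x`):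
`Good Γ (S \ {v}) (K \ {v}) T`. Only `dom` is not immediate: let `y ∈ S \ K`, `y ∉ T`, be dominated by
`v`. `y ≠ x`, since `x ~ v` would give `v ~ v`. `(S \ K) \ {x}` is connected and contains `y` and `T`
(nonempty, `y ∉ T`), so `y` has a neighbour `z` in it; then `v ~ z`, so `z = x`: contradiction. So `y` is
dominated by an element of `K` different from `v`. `((S \ {v}) \ (K \ {v}) = S \ K.)` -/
def SpecST1 : Prop :=
  ∀ {V : Type} [Finite V] (Γ : SimpleGraph V) (S K T : Set V), Good Γ S K T → T.Nonempty →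
    (∃ x ∈ S, x ∉ K ∧ x ∉ T) → Next Γ S

/-- ST2 (from NCT): everything outside `K` is dominated.

PROOF. Let `A = S \ K`, `y₀ ∈ A` (`ne`), dominated by `v ∈ K`: `y₀` is not adjacent to `v`. By `nb` `v` has
a neighbour `y₁ ∈ A`, `y₁ ≠ y₀`; `y₁` is dominated by `w ∈ K`, `w ≠ v` (`y₁ ~ v`). `v ~ w`, and `K = {v, w}`
(a third element gives a triangle). (*) For `y ∈ A` dominated by `v`: `y` has a neighbour `z ∈ A`
(`A` is connected with at least 2 elements); `z ~ v`, so `z` is not dominated by `v`, so it is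
dominated by `w`, and `y ~ z` gives `y ~ w`. Similarly with `v, w` exchanged.
If `A = {y₀, y₁}`: `y₀ ~ y₁` (connected), `y₀ ~ w`, `y₁ ~ v`: `S` is the square `v, w, y₀, y₁`
(`y₀` not `~ v`, `y₁` not `~ w`). Otherwise NCT with `T = {y₀}` gives `x ∈ A`, `x ≠ y₀`,
`Cn Γ (A \ {x})`, and `A \ {x}` has at least 2 elements, so it contains `y ~ z`; by (*) for `y` (applied in
`A`) one of `y, z` is adjacent to `v` and the other one to `w`: `nb`. `Good Γ (S \ {x}) K ∅`. -/
def SpecST2 : Prop :=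
  ∀ {V : Type} [Finite V] (Γ : SimpleGraph V) (S K : Set V), Good Γ S K ∅ → Next Γ S ∨ Sq Γ S

/-- ST3: `K` nonempty, `T = S \ K`.

PROOF. `v ∈ K`: `Good Γ (S \ {v}) (K \ {v}) T`: immediate, `(S \ {v}) \ (K \ {v}) = S \ K`. -/
def SpecST3 : Prop :=
  ∀ {V : Type} (Γ : SimpleGraph V) (S K T : Set V), Good Γ S K T → K.Nonempty →
    (∀ x ∈ S, x ∉ K → x ∈ T) → Next Γ S

/-- ST4 (from REP): a class with three twins, `K = ∅`.

PROOF. `T = S` (`dom` with `K = ∅` is impossible). `Good Γ (S \ {x}) ∅ (S \ {x})`: `twin`: let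
`y ∈ S \ {x}` with twin `y'`; if `y' = x` then `y` has the neighbours of `x`; take `x'` if `y ≠ x'` and `x''`
if `y = x'`. `cT`, `cD`: REP with `A = S`, `B = S \ {x}`, replacement `x'` for `x`. -/
def SpecST4 : Prop :=
  ∀ {V : Type} (Γ : SimpleGraph V) (S T : Set V), Good Γ S ∅ T →
    (∃ x ∈ S, ∃ x' ∈ S, ∃ x'' ∈ S, x' ≠ x ∧ x'' ≠ x ∧ x'' ≠ x' ∧
      (∀ z ∈ S, Γ.Adj x' z ↔ Γ.Adj x z) ∧ ∀ z ∈ S, Γ.Adj x'' z ↔ Γ.Adj x z) → Next Γ S

/-- ST5: all classes of twins have two elements, `K = ∅`.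

PROOF. `T = S`. Let `x₀ ∈ S`, twin `x₁`; `x₀` has a neighbour `y₀ ∈ S` (`S` connected, `x₁ ≠ x₀`), twin
`y₁`; `x_i ~ y_j` for all `i, j`, twins are not adjacent. `B₀ = {x₀, x₁, y₀, y₁}`, four different points.
If `S = B₀`: square `x₀, y₀, x₁, y₁`. Otherwise let `B` be maximal among the sets `B ⊆ S`, `B ≠ S`, `B`
nonempty, `Cn Γ B`, `B` closed under twins (`b ∈ B`, `b' ∈ S` with the same neighbours in `S` imply `b' ∈ B`);
`B₀` is such a set. There are `b ∈ B`, `z ∈ S \ B`, `b ~ z`; `z'` the twin of `z`, `z' ∉ B`, `b ~ z'`.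
`B ∪ {z, z'}` is connected and closed under twins, so it is `S`. `Good Γ (S \ {z}) {z'} B`: `twin`: the
twin of `y ∈ B` is in `B`; `dom`: nothing is left; `cD`: `(S \ {z}) \ {z'} = B`; `nb`: `z' ~ b`. -/
def SpecST5 : Prop :=
  ∀ {V : Type} [Finite V] (Γ : SimpleGraph V) (S T : Set V), Good Γ S ∅ T →
    (¬ ∃ x ∈ S, ∃ x' ∈ S, ∃ x'' ∈ S, x' ≠ x ∧ x'' ≠ x ∧ x'' ≠ x' ∧
      (∀ z ∈ S, Γ.Adj x' z ↔ Γ.Adj x z) ∧ ∀ z ∈ S, Γ.Adj x'' z ↔ Γ.Adj x z) →
    Next Γ S ∨ Sq Γ S

/-- CNV: translation between `Cn` and Mathlib's `Preconnected`, and the isomorphisms of the chain.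

PROOF. `pre`: `Reachable` in the induced graph. `cone`: the vertex `x` corresponds to `none`, `N` = the
neighbours of `x`. `sq`: `a, b, c, d` correspond to `0, 1, 2, 3`. -/
structure SpecCNV : Prop where
  pre : ∀ {V : Type} (Γ : SimpleGraph V) (A : Set V), (Γ.induce A).Preconnected ↔ Cn Γ A
  pre' : ∀ {V : Type} (Γ : SimpleGraph V) (S : Set V) (C : Set S),
    ((Γ.induce S).induce Cᶜ).Preconnected ↔ Cn Γ (S \ (Subtype.val '' C))
  cone : ∀ {V : Type} (Γ : SimpleGraph V) (S : Set V) (x : V), x ∈ S → ∃ N : Set (S \ {x} : Set V),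
    Nonempty (Γ.induce S ≃g coneOff (Γ.induce (S \ {x})) N)
  sq : ∀ {V : Type} (Γ : SimpleGraph V) (S : Set V), Sq Γ S →
    Nonempty (Γ.induce S ≃g SimpleGraph.cycleGraph 4)

/-- HP: a good configuration has the property `P` (from LEN, COV, NSC, CNV).

PROOF. `incomplete`: `x ∈ S \ K` (`ne`) has a twin or is dominated, both give a vertex `≠ x`, not adjacent
to `x`. `noSeparatingClique`: NSC and CNV.pre'. `raagedy`: COV for `Γ.induce S` and the preimage of `K`; LEN.wd
with LEN.gen. -/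
def SpecHP : Prop :=
  ∀ {V : Type} [Finite V] (Γ : SimpleGraph V) (S K T : Set V), Good Γ S K T → HasP (Γ.induce S)

/-- FIN (from all). helper15 -/
def SpecFIN : Prop :=
  ∀ {V : Type} [Finite V] (Γ : SimpleGraph V) (K : Set V), Γ.CliqueFree 3 → Γ ≠ ⊤ →
    NoSeparatingClique Γ → Γ.IsClique K → (∀ x, x ∉ K → HasTwin Γ K x ∨ Dominated Γ K x) →
    (Γ.induce {x | x ∉ K ∧ ¬ Dominated Γ K x}).Preconnected → BuiltInP Γ

end Pool.Agent.Lib.MPfe8d1b
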